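import Pool.Agent.Q20.Qs.Rigid

set_option autoImplicit false
set_option linter.unusedSectionVars false
set_option linter.unusedVariables false

namespace Pool.Agent.Q20.Qs

open Pool.Agent.H741.QS

section

variable {J : Type} [Fintype J] [DecidableEq J] {P : J → Type} [∀ k, Fintype (P k)]
variable {A : Type} [Ring A] [StarRing A] [Algebra ℝ A] [StarModule ℝ A]

/-- `exists_central` under the assumption that all edges are good -/
theorem exists_central' (G : ∀ k, SimpleGraph (P k)) (hG : ∀ k, (G k).Connected)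
    (hP : ∀ k, 2 ≤ Fintype.card (P k))
    (hprime : ∀ k, PrimeGraph (G k))
    (hB : ∀ x : A, star x * x = 0 → x = 0)
    (u : (∀ k, P k) → (∀ k, P k) → A) (h : QIso (boxPi G) (boxPi G) u)
    (hgood : ∀ (l : J) {a b : ∀ k, P k}, (boxPi G).Adj a b →
      Good (boxPi G) (fun w : ∀ k, P k => w l) (rest P l) u a b) :
    ∃ E : J → J → A, (∀ k l, star (E k l) = E k l) ∧ (∀ k l, E k l * E k l = E k l) ∧
      (∀ k l k' l', E k l * E k' l' = E k' l' * E k l) ∧ (∀ k, ∑ l, E k l = 1) ∧
      (∀ k l a w, E k l * u a w = u a w * E k l) ∧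
      (∀ k l a b w v, DirAdj G k a b → ¬ DirAdj G l w v → u a w * u b v * E k l = 0) := by
  classical
  have hconn := boxPi_connected G hG
  obtain ⟨o⟩ := hconn.nonempty
  choose b hb using fun k => exists_nbr G hG hP k o
  have hs := split_boxPi G hG
  have hadj : ∀ {k} {a b : ∀ k, P k}, DirAdj G k a b → (boxPi G).Adj a b :=
    fun {k} {a b} h => ⟨k, h.1, h.2⟩
  have hconst : ∀ k l {a c : ∀ k, P k}, DirAdj G k a c →
      EE (Dir1 (boxPi G) (rest P l)) u a c = EE (Dir1 (boxPi G) (rest P l)) u o (b k) :=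
    fun k l a c hac => EE_const' G hG hB u h k l (hprime k)
      (fun a b hab => hgood l (hadj hab)) (hb k) hac
  have hcu : ∀ k l a w, EE (Dir1 (boxPi G) (rest P l)) u o (b k) * u a w =
      u a w * EE (Dir1 (boxPi G) (rest P l)) u o (b k) := by
    intro k l a w
    obtain ⟨c, hc⟩ := exists_nbr G hG hP k a
    rw [← hconst k l hc]
    exact (EE_props h (hs l) (hadj hc) (hgood l (hadj hc))).2.2.1 w
  refine ⟨fun k l => EE (Dir1 (boxPi G) (rest P l)) u o (b k), ?_, ?_, ?_, ?_, ?_, ?_⟩
  · intro k l
    exact (EE_props h (hs l) (hadj (hb k)) (hgood l (hadj (hb k)))).1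
  · intro k l
    exact (EE_props h (hs l) (hadj (hb k)) (hgood l (hadj (hb k)))).2.1
  · intro k l k' l'
    have h1 : ∀ w v, EE (Dir1 (boxPi G) (rest P l)) u o (b k) * (u o w * u (b k') v) =
        (u o w * u (b k') v) * EE (Dir1 (boxPi G) (rest P l)) u o (b k) := by
      intro w v
      rw [← mul_assoc, hcu, mul_assoc, hcu, mul_assoc]
    show EE (Dir1 (boxPi G) (rest P l)) u o (b k) * EE (Dir1 (boxPi G) (rest P l')) u o (b k') =
      EE (Dir1 (boxPi G) (rest P l')) u o (b k') * EE (Dir1 (boxPi G) (rest P l)) u o (b k)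
    have e2 : EE (Dir1 (boxPi G) (rest P l')) u o (b k') = ∑ w, ∑ v,
      if Dir1 (boxPi G) (rest P l') w v then u o w * u (b k') v else 0 := rfl
    rw [e2, Finset.mul_sum, Finset.sum_mul]
    refine Finset.sum_congr rfl fun w _ => ?_
    rw [Finset.mul_sum, Finset.sum_mul]
    refine Finset.sum_congr rfl fun v _ => ?_
    split_ifs
    · exact h1 w v
    · simp
  · intro k
    have hx : ∀ w v, ∑ l, (if Dir1 (boxPi G) (rest P l) w v then u o w * u (b k) v else 0) =
        u o w * u (b k) v := by
      intro w v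
      by_cases hwv : (boxPi G).Adj w v
      · obtain ⟨i, hi, hne⟩ := hwv
        rw [Finset.sum_eq_single i]
        · rw [if_pos ((dir1_iff G i w v).2 ⟨hi, hne⟩)]
        · intro l _ hl
          rw [if_neg]
          rw [dir1_iff]
          rintro ⟨h1, h2⟩
          have h3 := h2 i (Ne.symm hl)
          rw [h3] at hi
          exact hi.ne rfl
        · intro hi'; exact absurd (Finset.mem_univ _) hi'
      · have h0 : u o w * u (b k) v = 0 :=
          h.adj _ _ _ _ fun h' => hwv (h'.1 (hadj (hb k)))
        rw [h0]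
        simp
    calc ∑ l, EE (Dir1 (boxPi G) (rest P l)) u o (b k)
        = ∑ l, ∑ w, ∑ v, (if Dir1 (boxPi G) (rest P l) w v then u o w * u (b k) v else 0) := rfl
      _ = ∑ w, ∑ v, ∑ l, (if Dir1 (boxPi G) (rest P l) w v then u o w * u (b k) v else 0) := by
          rw [Finset.sum_comm]
          refine Finset.sum_congr rfl fun w _ => ?_
          rw [Finset.sum_comm]
      _ = ∑ w, ∑ v, u o w * u (b k) v := by
          refine Finset.sum_congr rfl fun w _ => Finset.sum_congr rfl fun v _ => hx w v
      _ = 1 := by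
          simp only [← Finset.mul_sum, h.rowSum, mul_one]
  · intro k l a w
    exact hcu k l a w
  · intro k l a c w v hac hn
    show u a w * u c v * EE (Dir1 (boxPi G) (rest P l)) u o (b k) = 0
    rw [mul_assoc, ← hcu, ← mul_assoc, ← hconst k l hac, EE_sandwich h, if_neg]
    rw [dir1_iff]
    exact hn

end

theorem factor_aux (n : ℕ) : ∀ {V : Type} [Fintype V] (X : SimpleGraph V), Fintype.card V = n → X.Connected →
    ∃ (ι : Type) (_ : Fintype ι) (_ : DecidableEq ι) (P : ι → Type) (_ : ∀ i, Fintype (P i))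
      (G : ∀ i, SimpleGraph (P i)),
      (∀ i, (G i).Connected ∧ 2 ≤ Fintype.card (P i) ∧ PrimeGraph (G i)) ∧
      Nonempty (X ≃g boxPi G) := by
  induction n using Nat.strong_induction_on with
  | _ n ih =>
    intro V _ X hcard hX
    by_cases h2 : 2 ≤ Fintype.card V
    · by_cases hp : PrimeGraph X
      · refine ⟨Unit, inferInstance, inferInstance, fun _ => V, fun _ => inferInstance, fun _ => X,
          fun _ => ⟨hX, h2, hp⟩, ⟨⟨(Equiv.funUnique Unit V).symm, ?_⟩⟩⟩
        intro a b
        rw [boxPi_adj]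
        constructor
        · rintro ⟨_, h, _⟩; exact h
        · intro h; exact ⟨(), h, fun j hj => absurd rfl hj⟩
      · unfold PrimeGraph at hp
        push Not at hp
        obtain ⟨V1, V2, f1, f2, G1, G2, c1, c2, he⟩ := hp
        obtain ⟨e⟩ := he
        have hc : Fintype.card V = Fintype.card V1 * Fintype.card V2 := by
          rw [Fintype.card_congr e.toEquiv, Fintype.card_prod]
        have hcon : (G1 □ G2).Connected := (e.connected_iff).mp hX
        obtain ⟨hc1, hc2⟩ := SimpleGraph.connected_boxProd.mp hcon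
        obtain ⟨ι₁, i1, i2, P₁, i3, H₁, p1, ⟨q1⟩⟩ := ih (Fintype.card V1) (by nlinarith) G1 rfl hc1
        obtain ⟨ι₂, j1, j2, P₂, j3, H₂, p2, ⟨q2⟩⟩ := ih (Fintype.card V2) (by nlinarith) G2 rfl hc2
        refine ⟨ι₁ ⊕ ι₂, inferInstance, inferInstance, Sum.elim P₁ P₂,
          fun i => match i with
            | Sum.inl a => i3 a
            | Sum.inr b => j3 b,
          sumFam H₁ H₂, ?_, ⟨e.trans ((prodCongr q1 q2).trans (sumIso H₁ H₂))⟩⟩
        rintro (a | b)
        · exact p1 a
        · exact p2 b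
    · have hne : Nonempty V := hX.nonempty
      have hle : Fintype.card V ≤ 1 := by omega
      have hss : Subsingleton V := Fintype.card_le_one_iff_subsingleton.mp hle
      obtain ⟨v⟩ := hne
      refine ⟨Empty, inferInstance, inferInstance, fun _ => Unit, fun _ => inferInstance, fun _ => ⊤,
        fun i => i.elim, ⟨⟨⟨fun _ i => i.elim, fun _ => v, fun a => Subsingleton.elim _ _,
          fun f => by funext i; exact i.elim⟩, ?_⟩⟩⟩
      intro a b
      rw [boxPi_adj]
      constructor
      · rintro ⟨i, _⟩; exact i.elim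
      · intro h
        exact absurd (Subsingleton.elim a b) h.ne

end Pool.Agent.Q20.Qs
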