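import Pool.Agent.Helper741.QSym.Rel

set_option autoImplicit false
set_option linter.unusedSectionVars false
set_option linter.unusedVariables false

namespace Pool.Agent.Q20.Qs

open Pool.Agent.H741.QS

/-! ### anticommuting families -/

section anti

variable {T : Type} [Fintype T] [DecidableEq T]
variable {A : Type} [Ring A] [StarRing A] [Algebra ℝ A] [StarModule ℝ A]

theorem kill (hB : ∀ x : A, star x * x = 0 → x = 0) {b x : A} (hb : star b = b)
    (h : b * (b * x) = 0) : b * x = 0 := by
  apply hB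
  rw [star_mul, hb, mul_assoc, h, mul_zero]

theorem extract (hB : ∀ x : A, star x * x = 0 → x = 0) (b : T → A) (hs : ∀ m, star (b m) = b m)
    (ha : ∀ m q, m ≠ q → b m * b q + b q * b m = 0) (ζ : T → T → ℝ) (l l' : T) (hne : l ≠ l')
    (hll : b l * b l' ≠ 0) (hZ : (∑ m, ∑ q, ζ m q • (b m * b q)) * b l = 0) :
    ζ l l' = ζ l' l := by
  have hac : ∀ m q, b m * b q = - (b q * b m) + if m = q then (2 : ℝ) • (b m * b m) else 0 := by
    intro m q
    split_ifs with h
    · subst h
      rw [two_smul]; abel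
    · rw [add_zero]
      exact eq_neg_of_add_eq_zero_left (ha m q h)
  have hsq : ∀ m q, b m * (b q * b q) = (b q * b q) * b m := by
    intro m q
    by_cases h : m = q
    · subst h; rw [mul_assoc]
    · have e := eq_neg_of_add_eq_zero_left (ha m q h)
      rw [← mul_assoc, e, neg_mul, mul_assoc, e, mul_neg, neg_neg, ← mul_assoc]
  have hcomm : ∀ m q, b l * (b m * b q) - (b m * b q) * b l =
      (b l * b l) * ((if m = l then (2 : ℝ) • b q else 0) - (if q = l then (2 : ℝ) • b m else 0)) := by
    intro m q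
    by_cases h1 : m = l
    · subst h1
      by_cases h2 : q = m
      · subst h2
        simp only [if_true, sub_self, mul_zero]
        rw [← mul_assoc, sub_self]
      · rw [if_pos rfl, if_neg h2, sub_zero]
        have e := eq_neg_of_add_eq_zero_left (ha q m h2)
        rw [mul_assoc, e, mul_neg, sub_neg_eq_add, two_smul, mul_add, mul_assoc]
    · rw [if_neg h1]
      have e1 := eq_neg_of_add_eq_zero_left (ha l m (Ne.symm h1))
      by_cases h2 : q = l
      · subst h2
        rw [if_pos rfl, zero_sub, ← mul_assoc, e1, neg_mul, mul_assoc, hsq, mul_neg, two_smul,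
          mul_add]
        abel
      · have e2 := eq_neg_of_add_eq_zero_left (ha l q (Ne.symm h2))
        rw [if_neg h2, sub_zero, mul_zero, ← mul_assoc, e1, neg_mul, mul_assoc, e2, mul_neg,
          neg_neg, ← mul_assoc, sub_self]
  obtain ⟨Z, hZd⟩ : ∃ Z, Z = ∑ m, ∑ q, ζ m q • (b m * b q) := ⟨_, rfl⟩
  rw [← hZd] at hZ
  obtain ⟨W, hW⟩ : ∃ W, W = b l * Z - Z * b l := ⟨_, rfl⟩
  have hW1 : W = (b l * b l) * ∑ q, (2 * (ζ l q - ζ q l)) • b q := by
    rw [hW, hZd]
    have e1 : b l * (∑ m, ∑ q, ζ m q • (b m * b q)) - (∑ m, ∑ q, ζ m q • (b m * b q)) * b l =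
        ∑ m, ∑ q, ζ m q • ((b l * b l) *
          ((if m = l then (2 : ℝ) • b q else 0) - (if q = l then (2 : ℝ) • b m else 0))) := by
      rw [Finset.mul_sum, Finset.sum_mul, ← Finset.sum_sub_distrib]
      refine Finset.sum_congr rfl fun m _ => ?_
      rw [Finset.mul_sum, Finset.sum_mul, ← Finset.sum_sub_distrib]
      refine Finset.sum_congr rfl fun q _ => ?_
      rw [mul_smul_comm, smul_mul_assoc, ← smul_sub, hcomm]
    rw [e1]
    have e2 : ∀ m q, ζ m q • ((b l * b l) *
          ((if m = l then (2 : ℝ) • b q else 0) - (if q = l then (2 : ℝ) • b m else 0))) =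
        (b l * b l) * ((if m = l then (2 * ζ l q) • b q else 0) -
          (if q = l then (2 * ζ m l) • b m else 0)) := by
      intro m q
      rw [← mul_smul_comm]
      congr 1
      rw [smul_sub]
      congr 1
      · split_ifs with h
        · subst h; rw [smul_smul, mul_comm]
        · rw [smul_zero]
      · split_ifs with h
        · subst h; rw [smul_smul, mul_comm]
        · rw [smul_zero]
    rw [Finset.sum_congr rfl (fun m _ => Finset.sum_congr rfl (fun q _ => e2 m q))]
    simp only [← Finset.mul_sum]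
    congr 1
    simp only [Finset.sum_sub_distrib]
    rw [Finset.sum_comm]
    simp only [Finset.sum_ite_eq', Finset.mem_univ, if_true]
    rw [← Finset.sum_sub_distrib]
    refine Finset.sum_congr rfl fun q _ => ?_
    rw [← sub_smul]
    congr 1
    ring
  have hWb : W * b l = 0 := by
    rw [hW, sub_mul, mul_assoc, hZ, mul_zero, zero_mul, sub_zero]
  have hV : (b l' * W + W * b l') * b l = 0 := by
    have e := eq_neg_of_add_eq_zero_left (ha l' l (Ne.symm hne))
    rw [add_mul, mul_assoc, hWb, mul_zero, zero_add, mul_assoc, e, mul_neg, ← mul_assoc, hWb,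
      zero_mul, neg_zero]
  have hV1 : b l' * W + W * b l' = (4 * (ζ l l' - ζ l' l)) • ((b l * b l) * (b l' * b l')) := by
    rw [hW1]
    have e1 : b l' * ((b l * b l) * ∑ q, (2 * (ζ l q - ζ q l)) • b q) +
        (b l * b l) * (∑ q, (2 * (ζ l q - ζ q l)) • b q) * b l' =
        (b l * b l) * ∑ q, (2 * (ζ l q - ζ q l)) • (b l' * b q + b q * b l') := by
      have e2 : ∀ s S : A, b l' * s = s * b l' →
          b l' * (s * S) + s * S * b l' = s * (b l' * S + S * b l') := by
        intro s S e
        rw [← mul_assoc, e, mul_assoc, mul_add, mul_assoc s S]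
      rw [e2 _ _ (hsq l' l), Finset.mul_sum, Finset.sum_mul, ← Finset.sum_add_distrib]
      congr 1
      refine Finset.sum_congr rfl fun q _ => ?_
      rw [mul_smul_comm, smul_mul_assoc, smul_add]
    rw [e1, Finset.sum_eq_single l']
    · rw [← two_smul ℝ (b l' * b l'), smul_smul, mul_smul_comm]
      congr 1
      ring
    · intro q _ hq
      rw [ha l' q (Ne.symm hq), smul_zero]
    · intro h; exact absurd (Finset.mem_univ _) h
  by_contra hcon
  rw [hV1, smul_mul_assoc] at hV
  have h4 : 4 * (ζ l l' - ζ l' l) ≠ 0 := by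
    intro h0
    apply hcon
    linarith
  have h5 : (b l * b l) * (b l' * b l') * b l = 0 := by
    have := congrArg (fun z => (4 * (ζ l l' - ζ l' l))⁻¹ • z) hV
    simpa only [smul_smul, inv_mul_cancel₀ h4, one_smul, smul_zero] using this
  have h6 : b l * (b l * (b l * (b l' * b l'))) = 0 := by
    rw [mul_assoc, ← hsq, ← mul_assoc, ← mul_assoc] at h5
    rw [← mul_assoc, ← mul_assoc, ← mul_assoc]
    exact h5
  have h7 := kill hB (hs l) (kill hB (hs l) h6)
  have h8 : b l' * (b l' * b l) = 0 := by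
    have := congrArg star h7
    rwa [star_mul, star_mul, hs, hs, star_zero, mul_assoc] at this
  have h9 := kill hB (hs l') h8
  apply hll
  have := congrArg star h9
  rwa [star_mul, hs, hs, star_zero] at this

end anti

/-! ### flips and signs -/

/-- commuting flips `F k` of the points of `Ω` and their signs `χ k` -/
structure Cube (Ω T : Type) where
  F : T → Ω → Ω
  χ : T → Ω → ℝ
  ff : ∀ k a, F k (F k a) = a
  fc : ∀ k l a, F k (F l a) = F l (F k a)
  c1 : ∀ k a, χ k a * χ k a = 1
  c2 : ∀ k a, χ k (F k a) = - χ k a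
  c3 : ∀ k l a, l ≠ k → χ l (F k a) = χ l a

namespace Cube

variable {Ω T : Type} (C : Cube Ω T)

theorem ne_neg (k : T) (a : Ω) : C.χ k a ≠ - C.χ k a := by
  intro h
  have h0 : C.χ k a = 0 := by linarith
  have := C.c1 k a
  rw [h0] at this
  norm_num at this

theorem f_ne (k : T) (a : Ω) : C.F k a ≠ a := by
  intro h
  have := C.c2 k a
  rw [h] at this
  exact C.ne_neg k a this

theorem f_inj {m q : T} {a : Ω} (h : C.F m a = C.F q a) : m = q := by
  by_contra hne
  have h1 : C.χ m (C.F m a) = C.χ m (C.F q a) := by rw [h]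
  rw [C.c2, C.c3 q m a hne] at h1
  exact C.ne_neg m a h1.symm

theorem ff_cases [DecidableEq T] {r s k k' : T} (hne : k ≠ k') {a : Ω}
    (h : C.F r (C.F k a) = C.F s (C.F k' a)) : (r = k ∧ s = k') ∨ (r = k' ∧ s = k) := by
  have e : ∀ (j p q : T) (a : Ω), C.χ j (C.F p (C.F q a)) =
      (if j = p then -1 else 1) * (if j = q then -1 else 1) * C.χ j a := by
    intro j p q a
    by_cases h1 : j = p
    · by_cases h2 : j = q
      · subst h1; rw [h2, C.c2, C.c2]; simp
      · subst h1
        rw [C.c2, C.c3 q j a h2]; simp [h2]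
    · by_cases h2 : j = q
      · rw [C.c3 p j _ h1]; subst h2; rw [C.c2]; simp [h1]
      · rw [C.c3 p j _ h1, C.c3 q j a h2]; simp [h1, h2]
  have hk : ∀ j, (if j = r then (-1 : ℝ) else 1) * (if j = k then -1 else 1) =
      (if j = s then (-1 : ℝ) else 1) * (if j = k' then -1 else 1) := by
    intro j
    have h1 := congrArg (C.χ j) h
    rw [e, e] at h1
    have h2 := congrArg (fun x => x * C.χ j a) h1
    simp only [mul_assoc, C.c1, mul_one] at h2
    exact h2
  have h1 := hk k
  have h2 := hk k'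
  rw [if_neg hne, if_pos rfl] at h1
  rw [if_neg (Ne.symm hne), if_pos rfl] at h2
  by_cases hr : k = r
  · have hr' : k' ≠ r := fun h => hne (hr.trans h.symm)
    rw [if_neg hr'] at h2
    by_cases hs : k' = s
    · exact Or.inl ⟨hr.symm, hs.symm⟩
    · rw [if_neg hs] at h2
      norm_num at h2
  · rw [if_neg hr] at h1
    by_cases hs : k = s
    · have hs' : k' ≠ s := fun h => hne (hs.trans h.symm)
      rw [if_neg hs'] at h2
      by_cases hr' : k' = r
      · exact Or.inr ⟨hr'.symm, hs.symm⟩
      · rw [if_neg hr'] at h2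
        norm_num at h2
    · rw [if_neg hs] at h1
      norm_num at h1

/-- the graph of the flips -/
def graph : SimpleGraph Ω where
  Adj a b := ∃ k, b = C.F k a
  symm := ⟨fun a b ⟨k, h⟩ => ⟨k, by rw [h, C.ff]⟩⟩
  loopless := ⟨fun a ⟨k, h⟩ => C.f_ne k a h.symm⟩

theorem diag [DecidableEq T] {k k' : T} (hne : k ≠ k') (a : Ω) :
    Diag C.graph (C.F k a) (C.F k' a) a (C.F k (C.F k' a)) := by
  refine ⟨fun h => hne (C.f_inj h), ?_, ?_, ?_⟩
  · rintro ⟨m, hm⟩
    have h1 := congrArg (C.χ k) hm
    have h2 := congrArg (C.χ k') hm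
    rw [C.c3 k' k a hne] at h1
    rw [C.c2] at h2
    by_cases hmk : k = m
    · subst hmk
      rw [C.ff] at h2
      exact C.ne_neg k' a h2.symm
    · rw [C.c3 m k _ hmk, C.c2] at h1
      exact C.ne_neg k a h1
  · intro h
    have h1 := congrArg (C.χ k) h
    rw [C.c2, C.c3 k' k a hne] at h1
    exact C.ne_neg k a h1
  · intro e
    constructor
    · rintro ⟨⟨r, hr⟩, ⟨s, hs⟩⟩
      rcases C.ff_cases hne (hr.symm.trans hs) with ⟨rfl, rfl⟩ | ⟨rfl, rfl⟩
      · left; rw [hr, C.ff]
      · right; rw [hs]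
    · rintro (rfl | rfl)
      · exact ⟨⟨k, (C.ff k e).symm⟩, ⟨k', (C.ff k' e).symm⟩⟩
      · exact ⟨⟨k', (C.fc k k' a)⟩, ⟨k, rfl⟩⟩

end Cube

end Pool.Agent.Q20.Qs
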