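import Pool.Agent.Helper741.QSym.Central

set_option autoImplicit false
set_option linter.unusedSectionVars false
set_option linter.unusedVariables false

namespace Pool.Agent.Q20.Qs

open Pool.Agent.H741.QS

section

variable {J : Type} [Fintype J] [DecidableEq J] {P : J → Type} [∀ k, Fintype (P k)]

/-- the argument of `no_bad`, with the `K_2`-factor as its conclusion -/
theorem bad_K2 (G : ∀ i, SimpleGraph (P i)) (hG : ∀ i, (G i).Connected)
    (Bd : (∀ i, P i) → (∀ i, P i) → Prop)
    (b1 : ∀ a b, Bd a b → (boxPi G).Adj a b)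
    (b2 : ∀ a b, Bd a b → Bd b a)
    (b3 : ∀ a b c, Bd a b → (boxPi G).Adj a c → c ≠ b →
      ∃ d, (boxPi G).Adj b d ∧ (boxPi G).Adj c d ∧ Bd c d ∧
        ∀ z, ((boxPi G).dist a z : ℤ) - (boxPi G).dist b z =
          (boxPi G).dist c z - (boxPi G).dist d z)
    (k : J) (a0 b0 : ∀ i, P i) (hbd : Bd a0 b0) (hdir : DirAdj G k a0 b0) :
    ∃ (W : Type) (_ : Fintype W) (H : SimpleGraph W),
      Nonempty (G k ≃g ((⊤ : SimpleGraph Bool) □ H)) := by
  have hZ := boxPi_connected G hG
  obtain ⟨hk1, hk2⟩ := hdir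
  set h : (∀ i, P i) → ℤ := fun z => ((boxPi G).dist a0 z : ℤ) - (boxPi G).dist b0 z with hh
  set h1 : P k → ℤ := fun q => ((G k).dist (a0 k) q : ℤ) - (G k).dist (b0 k) q with hh1
  have hz : ∀ z, h z = h1 (z k) := fun z => dist_diff G hG k a0 b0 z hk2
  have claim : ∀ z, ∃ z', (Bd z z' ∧ ∀ w, ((boxPi G).dist z w : ℤ) - (boxPi G).dist z' w = h w) ∨
      (Bd z' z ∧ ∀ w, ((boxPi G).dist z' w : ℤ) - (boxPi G).dist z w = h w) := by
    have step : ∀ a c, (boxPi G).Adj a c →
      (∃ z', (Bd a z' ∧ ∀ w, ((boxPi G).dist a w : ℤ) - (boxPi G).dist z' w = h w) ∨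
        (Bd z' a ∧ ∀ w, ((boxPi G).dist z' w : ℤ) - (boxPi G).dist a w = h w)) →
      (∃ z', (Bd c z' ∧ ∀ w, ((boxPi G).dist c w : ℤ) - (boxPi G).dist z' w = h w) ∨
        (Bd z' c ∧ ∀ w, ((boxPi G).dist z' w : ℤ) - (boxPi G).dist c w = h w)) := by
      rintro a c hac ⟨b, ⟨hb1, hb2⟩ | ⟨hb1, hb2⟩⟩
      · by_cases hcb : c = b
        · subst hcb; exact ⟨a, Or.inr ⟨hb1, hb2⟩⟩
        · obtain ⟨d, _, _, hd3, hd4⟩ := b3 a b c hb1 hac hcb
          exact ⟨d, Or.inl ⟨hd3, fun w => by rw [← hd4 w]; exact hb2 w⟩⟩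
      · by_cases hcb : c = b
        · subst hcb; exact ⟨a, Or.inl ⟨hb1, hb2⟩⟩
        · obtain ⟨d, _, _, hd3, hd4⟩ := b3 a b c (b2 _ _ hb1) hac hcb
          refine ⟨d, Or.inr ⟨b2 _ _ hd3, fun w => ?_⟩⟩
          have e1 := hd4 w
          have e2 := hb2 w
          omega
    intro z
    obtain ⟨p⟩ := hZ.preconnected a0 z
    have hwalk : ∀ (u v : ∀ i, P i) (p : (boxPi G).Walk u v),
      (∃ z', (Bd u z' ∧ ∀ w, ((boxPi G).dist u w : ℤ) - (boxPi G).dist z' w = h w) ∨
        (Bd z' u ∧ ∀ w, ((boxPi G).dist z' w : ℤ) - (boxPi G).dist u w = h w)) →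
      (∃ z', (Bd v z' ∧ ∀ w, ((boxPi G).dist v w : ℤ) - (boxPi G).dist z' w = h w) ∨
        (Bd z' v ∧ ∀ w, ((boxPi G).dist z' w : ℤ) - (boxPi G).dist v w = h w)) := by
      intro u v p
      induction p with
      | nil => exact id
      | cons hadj _ ih => intro hu; exact ih (step _ _ hadj hu)
    exact hwalk a0 z p ⟨b0, Or.inl ⟨hbd, fun w => rfl⟩⟩
  have main : ∀ p : P k, ∃ p', (G k).Adj p p' ∧ ((∀ q, ((G k).dist p q : ℤ) - (G k).dist p' q = h1 q) ∨
      (∀ q, ((G k).dist p' q : ℤ) - (G k).dist p q = h1 q)) := by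
    intro p
    set z := Function.update a0 k p with hzdef
    have hzk : z k = p := by rw [hzdef]; simp
    obtain ⟨z', hz'⟩ := claim z
    have hadj : (boxPi G).Adj z z' := by
      rcases hz' with h' | h'
      · exact b1 _ _ h'.1
      · exact (b1 _ _ h'.1).symm
    have hd1 : ((boxPi G).dist z z' : ℤ) = 1 := by
      have := SimpleGraph.dist_eq_one_iff_adj.2 hadj; exact_mod_cast this
    have hd1' : ((boxPi G).dist z' z : ℤ) = 1 := by rw [SimpleGraph.dist_comm]; exact hd1
    have hne : h z ≠ h z' := by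
      rcases hz' with h' | h'
      · have e1 := h'.2 z
        have e2 := h'.2 z'
        rw [SimpleGraph.dist_self, hd1'] at e1
        rw [SimpleGraph.dist_self, hd1] at e2
        push_cast at e1 e2
        omega
      · have e1 := h'.2 z
        have e2 := h'.2 z'
        rw [SimpleGraph.dist_self, hd1'] at e1
        rw [SimpleGraph.dist_self, hd1] at e2
        push_cast at e1 e2
        omega
    obtain ⟨i, hi1, hi2⟩ := hadj
    have hik : i = k := by
      by_contra hik
      apply hne
      rw [hz z, hz z', hi2 k (Ne.symm hik)]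
    subst hik
    refine ⟨z' i, by rw [← hzk]; exact hi1, ?_⟩
    rcases hz' with h' | h'
    · left
      intro q
      have e := h'.2 (Function.update a0 i q)
      rw [dist_diff G hG i z z' _ hi2, hz, hzk] at e
      simpa using e
    · right
      intro q
      have e := h'.2 (Function.update a0 i q)
      rw [dist_diff G hG i z' z _ (fun j hj => (hi2 j hj).symm), hz, hzk] at e
      simpa using e
  exact k2_struct (G k) (hG k) h1 main

variable {A : Type} [Ring A] [StarRing A] [Algebra ℝ A] [StarModule ℝ A]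

theorem card_two_of_bad (G : ∀ k, SimpleGraph (P k)) (hG : ∀ k, (G k).Connected)
    (hprime : ∀ k, PrimeGraph (G k)) (hB : ∀ x : A, star x * x = 0 → x = 0)
    (u : (∀ k, P k) → (∀ k, P k) → A) (h : QIso (boxPi G) (boxPi G) u) (l k : J)
    {a b : ∀ k, P k} (hab : DirAdj G k a b)
    (hbad : ¬ Good (boxPi G) (fun w : ∀ k, P k => w l) (rest P l) u a b) :
    Fintype.card (P k) = 2 := by
  have hs := split_boxPi G hG l
  obtain ⟨W, fW, H, ⟨e⟩⟩ := bad_K2 G hG (fun a b => (boxPi G).Adj a b ∧
    ¬ Good (boxPi G) (fun w : ∀ k, P k => w l) (rest P l) u a b) (fun a b h1 => h1.1)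
    (fun a b ⟨h1, h2⟩ => ⟨h1.symm, fun h3 => h2 (good_symm h hs h1.symm h3)⟩)
    (by
      rintro a b c ⟨h1, h2⟩ h3 h4
      obtain ⟨d, h5, h6, h7, h8⟩ := bad_move h (boxPi_connected G hG) hs hB h1 h2 h3 h4
      exact ⟨d, h5, h6, ⟨h6, h7⟩, h8⟩) k a b ⟨⟨k, hab.1, hab.2⟩, hbad⟩ hab
  have hc : Fintype.card (P k) = 2 * Fintype.card W := by
    rw [Fintype.card_congr e.toEquiv, Fintype.card_prod, Fintype.card_bool]
  have h1 : ¬ 2 ≤ Fintype.card W := by
    intro h2
    exact (hprime k Bool W ⊤ H (by rw [Fintype.card_bool]) h2).false e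
  have h2 : 0 < Fintype.card (P k) := by
    have := (hG k).nonempty
    exact Fintype.card_pos
  omega

theorem EE_const' (G : ∀ k, SimpleGraph (P k)) (hG : ∀ k, (G k).Connected)
    (hB : ∀ x : A, star x * x = 0 → x = 0)
    (u : (∀ k, P k) → (∀ k, P k) → A) (h : QIso (boxPi G) (boxPi G) u) (k l : J)
    (hprime : PrimeGraph (G k))
    (hgood : ∀ a b, DirAdj G k a b → Good (boxPi G) (fun w : ∀ k, P k => w l) (rest P l) u a b)
    {a b c d : ∀ k, P k} (hab : DirAdj G k a b) (hcd : DirAdj G k c d) :
    EE (Dir1 (boxPi G) (rest P l)) u c d = EE (Dir1 (boxPi G) (rest P l)) u a b := by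
  have hs := split_boxPi G hG l
  have hdir : ∀ (z : ∀ k, P k) (p q : P k), (G k).Adj p q →
      DirAdj G k (Function.update z k p) (Function.update z k q) := by
    intro z p q hpq
    refine ⟨by simpa using hpq, fun j hj => ?_⟩
    rw [Function.update_of_ne hj, Function.update_of_ne hj]
  have hstep : ∀ z w : (∀ i, P i), (boxPi G).Adj z w →
      (∀ p q, (G k).Adj p q → EE (Dir1 (boxPi G) (rest P l)) u (Function.update z k p)
        (Function.update z k q) = EE (Dir1 (boxPi G) (rest P l)) u a b) →
      (∀ p q, (G k).Adj p q → EE (Dir1 (boxPi G) (rest P l)) u (Function.update w k p)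
        (Function.update w k q) = EE (Dir1 (boxPi G) (rest P l)) u a b) := by
    rintro z w ⟨i, hi1, hi2⟩ hz p q hpq
    by_cases hik : i = k
    · have : ∀ r : P k, Function.update w k r = Function.update z k r := by
        intro r
        funext j
        by_cases hj : j = k
        · subst hj; simp
        · rw [Function.update_of_ne hj, Function.update_of_ne hj, hi2 j (by rw [hik]; exact hj)]
      rw [this, this]
      exact hz p q hpq
    · have hd := pl_move G k z w i hik hi1 hi2 p q hpq
      rw [← hz p q hpq]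
      exact (EE_sq h hs hd (hgood _ _ (hdir z p q hpq)) (hgood _ _ (hdir w p q hpq))).symm
  have hreach : ∀ z w : (∀ i, P i), (boxPi G).Reachable z w →
      (∀ p q, (G k).Adj p q → EE (Dir1 (boxPi G) (rest P l)) u (Function.update z k p)
        (Function.update z k q) = EE (Dir1 (boxPi G) (rest P l)) u a b) →
      (∀ p q, (G k).Adj p q → EE (Dir1 (boxPi G) (rest P l)) u (Function.update w k p)
        (Function.update w k q) = EE (Dir1 (boxPi G) (rest P l)) u a b) := by
    rintro z w ⟨W⟩
    induction W with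
    | nil => exact id
    | cons hadj _ ih => exact fun hz => ih (hstep _ _ hadj hz)
  have hx0 : Function.update a k (a k) = a := Function.update_eq_self k a
  have hx1 : Function.update a k (b k) = b := by
    funext j
    by_cases hj : j = k
    · subst hj; simp
    · rw [Function.update_of_ne hj]; exact hab.2 j hj
  have hy0 : Function.update c k (c k) = c := Function.update_eq_self k c
  have hy1 : Function.update c k (d k) = d := by
    funext j
    by_cases hj : j = k
    · subst hj; simp
    · rw [Function.update_of_ne hj]; exact hcd.2 j hj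
  have hcl : ParClosed (G k) (fun p q => EE (Dir1 (boxPi G) (rest P l)) u (Function.update a k p)
      (Function.update a k q) = EE (Dir1 (boxPi G) (rest P l)) u a b) := by
    constructor
    · intro p q hpq h1
      rw [← h1]
      exact (EE_flip h hs ((pl_adj G k a p q).2 hpq) (hgood _ _ (hdir a p q hpq))).symm
    · intro p q r hpq hpr hqr hno h1
      rw [← h1]
      refine (EE_loc h hs ((pl_adj G k a p q).2 hpq) ((pl_adj G k a p r).2 hpr)
        (fun h => hqr (Function.update_injective a k h)) ?_).symm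
      rintro ⟨w, hw⟩
      have h1 := (hw.2.2.2 w).2 (Or.inr rfl)
      have h2 := pl_nb G k a w q r hqr h1.1 h1.2
      rw [h2, pl_diag] at hw
      exact hno ⟨_, hw⟩
    · intro p q r s hd h1
      rw [← h1]
      exact (EE_sq h hs ((pl_diag G k a q r p s).2 hd) (hgood _ _ (hdir a p q hd.adj1.symm))
        (hgood _ _ (hdir a r s hd.adj4))).symm
    · intro p q r s t hd1 hd2 ht h1
      rw [← h1]
      refine (EE_tw (z := Function.update a k t) h (boxPi_connected G hG) hs hB
        ((pl_diag G k a q r p s).2 hd1) ((pl_diag G k a p s q r).2 hd2) ?_).symm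
      rw [pl_dist G k hG, pl_dist G k hG, pl_dist G k hG, pl_dist G k hG]
      exact ht
  have hQx := par_irred (G k) (hG k) hprime _ hcl ⟨a k, b k, hab.1, by rw [hx0, hx1]⟩
  have hQy := hreach a c ((boxPi_connected G hG).preconnected a c) hQx (c k) (d k) hcd.1
  rwa [hy0, hy1] at hQy

theorem two_nbr {V : Type} [Fintype V] (G : SimpleGraph V) (hG : G.Connected) {x0 y0 : V}
    (h0 : G.Adj x0 y0) (hc : Fintype.card V ≠ 2) :
    ∃ x y z, G.Adj x y ∧ G.Adj x z ∧ y ≠ z := by
  classical
  by_contra hno
  push Not at hno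
  have key : ∀ (s t : V), G.Walk s t → (s = x0 ∨ s = y0) → (t = x0 ∨ t = y0) := by
    intro s t p
    induction p with
    | nil => exact id
    | cons hadj _ ih =>
      intro hs
      apply ih
      rcases hs with rfl | rfl
      · exact Or.inr (hno _ _ _ hadj h0)
      · exact Or.inl (hno _ _ _ hadj h0.symm)
  have h1 : (Finset.univ : Finset V) = {x0, y0} := by
    ext t
    simp only [Finset.mem_univ, Finset.mem_insert, Finset.mem_singleton, true_iff]
    obtain ⟨p⟩ := hG.preconnected x0 t
    exact key x0 t p (Or.inl rfl)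
  apply hc
  rw [← Finset.card_univ, h1, Finset.card_pair h0.ne]

theorem exists_flip (G : ∀ k, SimpleGraph (P k)) (hG : ∀ k, (G k).Connected) (l : J)
    (hl : Fintype.card (P l) = 2) (w : ∀ k, P k) :
    ∃ w', DirAdj G l w w' ∧ ∀ v, DirAdj G l w v → v = w' := by
  classical
  have hn : Nontrivial (P l) := Fintype.one_lt_card_iff_nontrivial.1 (by omega)
  obtain ⟨y, hy⟩ := (hG l).preconnected.exists_adj_of_nontrivial (w l)
  refine ⟨Function.update w l y, ⟨by simpa using hy, fun j hj => by
    rw [Function.update_of_ne hj]⟩, fun v hv => ?_⟩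
  have h1 : v l = y := by
    by_contra hne
    have h2 : ({w l, y, v l} : Finset (P l)).card = 3 := by
      rw [Finset.card_insert_of_notMem, Finset.card_pair (Ne.symm hne)]
      simp only [Finset.mem_insert, Finset.mem_singleton, not_or]
      exact ⟨hy.ne, hv.1.ne⟩
    have h3 := Finset.card_le_univ ({w l, y, v l} : Finset (P l))
    omega
  funext j
  by_cases hj : j = l
  · subst hj
    rw [Function.update_self, h1]
  · rw [Function.update_of_ne hj]
    exact (hv.2 j hj).symm

theorem no_cross (G : ∀ k, SimpleGraph (P k)) (hG : ∀ k, (G k).Connected)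
    (hP : ∀ k, 2 ≤ Fintype.card (P k))
    (hprime : ∀ k, PrimeGraph (G k)) (hB : ∀ x : A, star x * x = 0 → x = 0)
    (u : (∀ k, P k) → (∀ k, P k) → A) (h : QIso (boxPi G) (boxPi G) u) (k l : J)
    (hk : Fintype.card (P k) ≠ 2) (hl : Fintype.card (P l) = 2)
    {a b w v : ∀ k, P k} (hab : DirAdj G k a b) (hwv : DirAdj G l w v) :
    u a w * u b v = 0 := by
  classical
  have hs := split_boxPi G hG l
  have hgood : ∀ a b, DirAdj G k a b → Good (boxPi G) (fun w : ∀ k, P k => w l) (rest P l) u a b := by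
    intro a b hab
    by_contra hbad
    exact hk (card_two_of_bad G hG hprime hB u h l k hab hbad)
  have hadj : ∀ {a b : ∀ k, P k}, DirAdj G k a b → (boxPi G).Adj a b :=
    fun {a} {b} h => ⟨k, h.1, h.2⟩
  have hconst : ∀ {c d : ∀ k, P k}, DirAdj G k c d →
      EE (Dir1 (boxPi G) (rest P l)) u c d = EE (Dir1 (boxPi G) (rest P l)) u a b :=
    fun {c} {d} hcd => EE_const' G hG hB u h k l (hprime k) hgood hab hcd
  obtain ⟨E, hE⟩ : ∃ E, E = EE (Dir1 (boxPi G) (rest P l)) u a b := ⟨_, rfl⟩
  rw [← hE] at hconst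
  have hcu : ∀ c w, E * u c w = u c w * E := by
    intro c w
    obtain ⟨d, hd⟩ := exists_nbr G hG hP k c
    rw [← hconst hd]
    exact (EE_props h hs (hadj hd) (hgood _ _ hd)).2.2.1 w
  have hEs : star E = E := by
    rw [hE]; exact (EE_props h hs (hadj hab) (hgood _ _ hab)).1
  obtain ⟨x, y, z, hxy, hxz, hyz⟩ := two_nbr (G k) (hG k) hab.1 hk
  have hdir : ∀ p q : P k, (G k).Adj p q →
      DirAdj G k (Function.update a k p) (Function.update a k q) := by
    intro p q hpq
    refine ⟨by simpa using hpq, fun j hj => ?_⟩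
    rw [Function.update_of_ne hj, Function.update_of_ne hj]
  have hE0 : E = 0 := by
    apply h.eq_zero_left (Function.update a k x)
    intro w
    obtain ⟨w', hw1, hw2⟩ := exists_flip G hG l hl w
    have key : ∀ p, (G k).Adj x p → u (Function.update a k x) w * E =
        u (Function.update a k x) w * u (Function.update a k p) w' := by
      intro p hp
      rw [← hconst (hdir x p hp), M5_left h, Finset.sum_eq_single w']
      · rw [if_pos ((dir1_iff G l w w').2 hw1)]
      · intro v _ hv
        rw [if_neg]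
        intro hv'
        exact hv (hw2 v ((dir1_iff G l w v).1 hv'))
      · intro hw; exact absurd (Finset.mem_univ _) hw
    have key2 : ∀ p, (G k).Adj x p → u (Function.update a k p) w' *
        (u (Function.update a k x) w * E) = u (Function.update a k x) w * E := by
      intro p hp
      have e1 : u (Function.update a k x) w * E =
          u (Function.update a k p) w' * u (Function.update a k x) w := by
        have e2 := congrArg star (key p hp)
        rw [star_mul, star_mul, h.star_eq, h.star_eq, hEs, hcu] at e2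
        exact e2
      rw [e1, ← mul_assoc, h.idem]
    rw [← key2 y hxy, ← key2 z hxz, ← mul_assoc, h.colOrth _ _ w' ?_, zero_mul]
    intro he
    exact hyz (Function.update_injective a k he)
  have h1 := EE_sandwich h (Dir1 (boxPi G) (rest P l)) a b w v
  rw [if_pos ((dir1_iff G l w v).2 hwv), ← hE, hE0, mul_zero, zero_mul] at h1
  exact h1.symm

theorem no_cross' (G : ∀ k, SimpleGraph (P k)) (hG : ∀ k, (G k).Connected)
    (hP : ∀ k, 2 ≤ Fintype.card (P k))
    (hprime : ∀ k, PrimeGraph (G k)) (hB : ∀ x : A, star x * x = 0 → x = 0)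
    (u : (∀ k, P k) → (∀ k, P k) → A) (h : QIso (boxPi G) (boxPi G) u) (k l : J)
    (hkl : ¬ (Fintype.card (P k) = 2 ↔ Fintype.card (P l) = 2))
    {a b w v : ∀ k, P k} (hab : DirAdj G k a b) (hwv : DirAdj G l w v) :
    u a w * u b v = 0 := by
  by_cases hk : Fintype.card (P k) = 2
  · have hl : Fintype.card (P l) ≠ 2 := fun hl => hkl ⟨fun _ => hl, fun _ => hk⟩
    exact no_cross G hG hP hprime hB (fun w a => u a w) h.transpose l k hl hk hwv hab
  · have hl : Fintype.card (P l) = 2 := by
      by_contra hl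
      exact hkl ⟨fun h => absurd h hk, fun h => absurd h hl⟩
    exact no_cross G hG hP hprime hB u h k l hk hl hab hwv

end

end Pool.Agent.Q20.Qs
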