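import Pool.Agent.Q20.Qs.Mix
import Pool.Agent.Q20.Qs.Pres

set_option autoImplicit false
set_option linter.unusedSectionVars false
set_option linter.unusedVariables false

namespace Pool.Agent.Q20.Qs

open Pool.Agent.H741.QS

section

variable {J : Type} [Fintype J] [DecidableEq J] {P : J → Type} [∀ k, Fintype (P k)]

/-- the directions with two points -/
abbrev T2 (P : J → Type) [∀ k, Fintype (P k)] : Type := {k : J // Fintype.card (P k) = 2}

/-- the two points of such a direction -/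
noncomputable def e2 (k : T2 P) : P k.1 ≃ Bool := Fintype.equivOfCardEq (by
  rw [k.2, Fintype.card_bool])

/-- the flips of the two-point directions -/
noncomputable def cube (P : J → Type) [∀ k, Fintype (P k)] : Cube (∀ k, P k) (T2 P) where
  F k a := Function.update a k.1 ((e2 k).symm (!(e2 k (a k.1))))
  χ k a := if e2 k (a k.1) then 1 else -1
  ff k a := by
    rw [Function.update_self, Function.update_idem, Equiv.apply_symm_apply, Bool.not_not,
      Equiv.symm_apply_apply, Function.update_eq_self]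
  fc k l a := by
    by_cases hkl : k = l
    · subst hkl; rfl
    · have h1 : k.1 ≠ l.1 := fun h => hkl (Subtype.ext h)
      rw [Function.update_of_ne h1, Function.update_of_ne (Ne.symm h1), Function.update_comm h1]
  c1 k a := by split_ifs <;> norm_num
  c2 k a := by
    rw [Function.update_self, Equiv.apply_symm_apply]
    by_cases h : e2 k (a k.1) = true
    · simp [h]
    · simp [h]
  c3 k l a h := by
    have h1 : l.1 ≠ k.1 := fun h' => h (Subtype.ext h')
    rw [Function.update_of_ne h1]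

theorem cube_F_self (k : T2 P) (a : ∀ k, P k) :
    (cube P).F k a k.1 = (e2 k).symm (!(e2 k (a k.1))) := Function.update_self _ _ _

theorem cube_F_ne (k : T2 P) (a : ∀ k, P k) (j : J) (h : j ≠ k.1) :
    (cube P).F k a j = a j := Function.update_of_ne h _ _

theorem dirAdj_F (G : ∀ k, SimpleGraph (P k)) (hG : ∀ k, (G k).Connected) (k : T2 P)
    (a b : ∀ k, P k) : DirAdj G k.1 a b ↔ b = (cube P).F k a := by
  obtain ⟨w', hw1, hw2⟩ := exists_flip G hG k.1 k.2 a
  have hw : w' = (cube P).F k a := by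
    funext j
    by_cases hj : j = k.1
    · subst hj
      rw [cube_F_self]
      apply (e2 k).injective
      rw [Equiv.apply_symm_apply]
      have h1 : e2 k (a k.1) ≠ e2 k (w' k.1) := fun h => hw1.1.ne ((e2 k).injective h)
      cases h2 : e2 k (a k.1) <;> cases h3 : e2 k (w' k.1) <;> simp_all
    · rw [cube_F_ne k a j hj]
      exact (hw1.2 j hj).symm
  constructor
  · intro h
    rw [← hw]
    exact hw2 b h
  · rintro rfl
    rw [← hw]
    exact hw1

theorem graph_adj (G : ∀ k, SimpleGraph (P k)) (hG : ∀ k, (G k).Connected) (a b : ∀ k, P k) :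
    (cube P).graph.Adj a b ↔ ∃ k, Fintype.card (P k) = 2 ∧ DirAdj G k a b := by
  constructor
  · rintro ⟨k, hk⟩
    exact ⟨k.1, k.2, (dirAdj_F G hG k a b).2 hk⟩
  · rintro ⟨k, hk, h⟩
    exact ⟨⟨k, hk⟩, (dirAdj_F G hG ⟨k, hk⟩ a b).1 h⟩

variable {A : Type} [Ring A] [StarRing A] [Algebra ℝ A] [StarModule ℝ A]
variable (G : ∀ k, SimpleGraph (P k)) (hG : ∀ k, (G k).Connected)
    (hP : ∀ k, 2 ≤ Fintype.card (P k))
    (hprime : ∀ k, PrimeGraph (G k)) (hB : ∀ x : A, star x * x = 0 → x = 0)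
    (u : (∀ k, P k) → (∀ k, P k) → A) (h : QIso (boxPi G) (boxPi G) u)

include hG hP hprime hB h

theorem cube_qiso : QIso (cube P).graph (cube P).graph u := by
  refine ⟨h.star_eq, h.idem, h.rowOrth, h.colOrth, h.rowSum, h.colSum, ?_⟩
  intro a b w v hn
  rw [graph_adj G hG, graph_adj G hG] at hn
  by_cases h1 : (boxPi G).Adj a b ↔ (boxPi G).Adj w v
  · by_cases h2 : (boxPi G).Adj a b
    · obtain ⟨k, hk1, hk2⟩ := h2
      obtain ⟨l, hl1, hl2⟩ := h1.1 ⟨k, hk1, hk2⟩
      have key : ∀ {k a b}, DirAdj G k a b →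
          ((∃ j, Fintype.card (P j) = 2 ∧ DirAdj G j a b) ↔ Fintype.card (P k) = 2) := by
        intro k a b hd
        constructor
        · rintro ⟨j, hj1, hj2⟩
          have : j = k := by
            by_contra hne
            have := hj2.2 k (Ne.symm hne)
            exact hd.1.ne this
          rw [← this]; exact hj1
        · intro hk
          exact ⟨k, hk, hd⟩
      rw [key (⟨hk1, hk2⟩ : DirAdj G k a b), key (⟨hl1, hl2⟩ : DirAdj G l w v)] at hn
      exact no_cross' G hG hP hprime hB u h k l hn ⟨hk1, hk2⟩ ⟨hl1, hl2⟩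
    · exfalso
      apply hn
      constructor
      · rintro ⟨k, -, hk⟩
        exact absurd ⟨k, hk.1, hk.2⟩ h2
      · rintro ⟨k, -, hk⟩
        exact absurd (h1.2 ⟨k, hk.1, hk.2⟩) h2
  · exact h.adj a b w v h1

theorem exists_B : ∃ B : T2 P → T2 P → A, ∀ k l a, (cube P).D u k l a = B k l := by
  obtain ⟨o⟩ := (boxPi_connected G hG).nonempty
  have hq := cube_qiso G hG hP hprime hB u h
  refine ⟨fun k l => (cube P).D u k l o, fun k l a => ?_⟩
  refine (cube P).D_const hq (fun a c => ∃ j, Fintype.card (P j) ≠ 2 ∧ DirAdj G j a c)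
    ?_ ?_ ?_ ?_ k l o a
  · rintro a c l ⟨j, hj1, hj2⟩
    apply h.eq_of a c
    intro w v
    rw [h.u_mul_al, mul_assoc, h.al_mul_u, smul_mul_assoc, mul_smul_comm]
    by_cases h0 : u a w * u c v = 0
    · rw [h0, smul_zero, smul_zero]
    · have hadj : (boxPi G).Adj w v := by
        by_contra hna
        exact h0 (h.adj _ _ _ _ fun h' => hna (h'.1 ⟨j, hj2.1, hj2.2⟩))
      obtain ⟨m, hm1, hm2⟩ := hadj
      have hm : Fintype.card (P m) ≠ 2 := by
        intro hm
        exact h0 (no_cross' G hG hP hprime hB u h j m (fun h' => hj1 (h'.2 hm)) hj2 ⟨hm1, hm2⟩)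
      have hlm : l.1 ≠ m := by
        intro h'
        exact hm (by rw [← h']; exact l.2)
      have : (cube P).χ l w = (cube P).χ l v := by
        show (if e2 l (w l.1) then (1 : ℝ) else -1) = if e2 l (v l.1) then (1 : ℝ) else -1
        rw [hm2 l.1 hlm]
      rw [this]
  · rintro a c k ⟨j, hj1, hj2⟩
    have hjk : j ≠ k.1 := fun h' => hj1 (by rw [h']; exact k.2)
    refine ⟨j, hj1, ?_, ?_⟩
    · rw [cube_F_ne k a j hjk, cube_F_ne k c j hjk]; exact hj2.1
    · intro i hi
      by_cases hik : i = k.1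
      · subst hik
        rw [cube_F_self, cube_F_self, hj2.2 _ hi]
      · rw [cube_F_ne k a i hik, cube_F_ne k c i hik]; exact hj2.2 i hi
  · rintro a c k ⟨j, hj1, hj2⟩
    have hjk : k.1 ≠ j := fun h' => hj1 (by rw [← h']; exact k.2)
    show (if e2 k (a k.1) then (1 : ℝ) else -1) = if e2 k (c k.1) then (1 : ℝ) else -1
    rw [hj2.2 k.1 hjk]
  · intro Q hQ1 hQ2 a c ha
    obtain ⟨p⟩ := (boxPi_connected G hG).preconnected a c
    induction p with
    | nil => exact ha
    | cons hadj _ ih =>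
      apply ih
      obtain ⟨j, hj1, hj2⟩ := hadj
      by_cases hj : Fintype.card (P j) = 2
      · rw [(dirAdj_F G hG ⟨j, hj⟩ _ _).1 ⟨hj1, hj2⟩]
        exact hQ1 _ _ ha
      · exact hQ2 _ _ ⟨j, hj, hj1, hj2⟩ ha

theorem mixing_of_bad (B : T2 P → T2 P → A) (hBd : ∀ k l a, (cube P).D u k l a = B k l)
    (k l : J) {a b : ∀ k, P k} (hab : DirAdj G k a b)
    (hbad : ¬ Good (boxPi G) (fun w : ∀ k, P k => w l) (rest P l) u a b) :
    ∃ k l l' : T2 P, l ≠ l' ∧ B k l * B k l' ≠ 0 := by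
  have hq := cube_qiso G hG hP hprime hB u h
  have hk := card_two_of_bad G hG hprime hB u h l k hab hbad
  unfold Good at hbad
  push Not at hbad
  obtain ⟨w, v, w', h1, h2, h3, h4, h5⟩ := hbad
  have hdl : DirAdj G l w v := (dir1_iff G l w v).1 ⟨h1, h2⟩
  have hl : Fintype.card (P l) = 2 := by
    by_contra hl
    apply h5
    rw [no_cross' G hG hP hprime hB u h k l (fun h' => hl (h'.1 hk)) hab hdl, zero_mul]
  obtain ⟨m, hm1, hm2⟩ := h3
  have hml : m ≠ l := by
    rintro rfl
    exact hm1.ne h4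
  have hba : DirAdj G k b a := ⟨hab.1.symm, fun j hj => (hab.2 j hj).symm⟩
  have hm : Fintype.card (P m) = 2 := by
    by_contra hm
    apply h5
    rw [mul_assoc, no_cross' G hG hP hprime hB u h k m (fun h' => hm (h'.1 hk)) hba ⟨hm1, hm2⟩,
      mul_zero]
  have ev := (dirAdj_F G hG ⟨l, hl⟩ w v).1 hdl
  have ew := (dirAdj_F G hG ⟨m, hm⟩ v w').1 ⟨hm1, hm2⟩
  have eb := (dirAdj_F G hG ⟨k, hk⟩ a b).1 hab
  refine ⟨⟨k, hk⟩, ⟨m, hm⟩, ⟨l, hl⟩, fun h' => hml (congrArg Subtype.val h'), ?_⟩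
  intro h0
  have : Nonempty (∀ k, P k) := ⟨a⟩
  apply h5
  rw [eb, ev, (cube P).edge_half hq B hBd, smul_mul_assoc, mul_assoc, (cube P).B_int hq B hBd,
    ← mul_assoc]
  have ew' : (cube P).F ⟨l, hl⟩ w' = (cube P).F ⟨m, hm⟩ w := by
    rw [ew, ev, (cube P).fc, (cube P).ff]
  rw [ew', (cube P).edge_half hq B hBd, smul_mul_assoc, mul_assoc (u a w), h0, mul_zero, smul_zero,
    smul_zero]

/-- if the graph `Hg` is preserved and not invariant, then all edges are good -/
theorem all_good' (Hg : SimpleGraph (∀ k, P k)) (hH : QIso Hg Hg u)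
    (hrig : ∀ l l' : T2 P, l ≠ l' →
      (∀ w y, (Hg.Adj ((cube P).F l w) ((cube P).F l y) ↔
        Hg.Adj ((cube P).F l' w) ((cube P).F l' y))) →
      (∀ w y, (cube P).χ l w * (cube P).χ l' w = (cube P).χ l y * (cube P).χ l' y →
        (Hg.Adj w ((cube P).F l y) ↔ Hg.Adj w ((cube P).F l' y))) → False)
    (l : J) {a b : ∀ k, P k} (hab : (boxPi G).Adj a b) :
    Good (boxPi G) (fun w : ∀ k, P k => w l) (rest P l) u a b := by
  by_contra hbad
  obtain ⟨k, hk1, hk2⟩ := hab
  have hq := cube_qiso G hG hP hprime hB u h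
  obtain ⟨B, hBd⟩ := exists_B G hG hP hprime hB u h
  obtain ⟨k, l, l', hne, hll⟩ := mixing_of_bad G hG hP hprime hB u h B hBd k l ⟨hk1, hk2⟩ hbad
  have : Nonempty (∀ k, P k) := ⟨a⟩
  exact hrig l l' hne (fun w y => (cube P).inv1 hq B hBd hH k l l' hne hll w y)
    (fun w y hpar => (cube P).inv2 hq B hBd hH hB k l l' hne hll w y hpar)

end

end Pool.Agent.Q20.Qs
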