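import Pool.Agent.Q20.Qs.Cliff

set_option autoImplicit false
set_option linter.unusedSectionVars false
set_option linter.unusedVariables false

namespace Pool.Agent.Q20.Qs

open Pool.Agent.H741.QS

namespace Cube

variable {Ω T : Type} [Fintype Ω] [Fintype T] [DecidableEq T] (C : Cube Ω T)
variable {A : Type} [Ring A] [StarRing A] [Algebra ℝ A] [StarModule ℝ A]
variable {u : Ω → Ω → A}

open Classical in
theorem diag_sum_eq {H : SimpleGraph Ω} {t v w r : Ω} (hw : Diag H t v w r) (F : Ω → ℝ) :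
    (∑ x, if (H.Adj t x ∧ H.Adj v x) then F x else 0) = F w + F r := by
  have : ∀ x, (if (H.Adj t x ∧ H.Adj v x) then F x else 0) =
      if (x = w ∨ x = r) then F x else 0 := fun x => by
    simp only [hw.2.2.2 x]
  simp only [this]
  rw [← Finset.sum_filter]
  have h6 : (Finset.univ.filter fun x => x = w ∨ x = r) = {w, r} := by
    ext x; simp
  rw [h6, Finset.sum_pair hw.2.2.1]

theorem chi_sum {p q : T} (hpq : p ≠ q) (l : T) (t : Ω) :
    C.χ l (C.F p t) + C.χ l (C.F q t) = C.χ l t + C.χ l (C.F q (C.F p t)) := by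
  by_cases h1 : l = p
  · subst h1
    rw [C.c2, C.c3 q l _ hpq, C.c3 q l _ hpq, C.c2]
    try ring
  · by_cases h2 : l = q
    · subst h2
      rw [C.c2, C.c2, C.c3 p l _ h1]
      try ring
    · rw [C.c3 p l _ h1, C.c3 q l _ h2, C.c3 q l _ h2, C.c3 p l _ h1]

theorem second (h : QIso C.graph C.graph u) {k k' : T} (hne : k ≠ k') (l : T) (a : Ω) :
    al u (C.χ l) a - al u (C.χ l) (C.F k a) - al u (C.χ l) (C.F k' a) +
      al u (C.χ l) (C.F k (C.F k' a)) = 0 := by
  classical
  have hd := C.diag hne a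
  apply h.eq_zero (C.F k' a) (C.F k a)
  intro t v
  have e1 : u (C.F k' a) t * (al u (C.χ l) a - al u (C.χ l) (C.F k a) - al u (C.χ l) (C.F k' a) +
      al u (C.χ l) (C.F k (C.F k' a))) * u (C.F k a) v =
      u (C.F k' a) t * (al u (C.χ l) a + al u (C.χ l) (C.F k (C.F k' a))) * u (C.F k a) v -
      u (C.F k' a) t * (al u (C.χ l) (C.F k a) * u (C.F k a) v) -
      (u (C.F k' a) t * al u (C.χ l) (C.F k' a)) * u (C.F k a) v := by noncomm_ring
  rw [e1, h.square_sum hd, h.al_mul_u, h.u_mul_al, mul_smul_comm, smul_mul_assoc, ← sub_smul,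
    ← sub_smul]
  by_cases hX : u (C.F k' a) t * u (C.F k a) v = 0
  · rw [hX, smul_zero]
  obtain ⟨w, r, hw⟩ := h.diag_rel hd.symm hX
  obtain ⟨p, hp⟩ := hw.adj1
  obtain ⟨q, hq⟩ := hw.adj2.symm
  have hpq : p ≠ q := by
    rintro rfl
    apply hw.1
    rw [hq, hp, C.ff]
  have hr : C.F q t = r := by
    have h1 : C.graph.Adj t (C.F q t) ∧ C.graph.Adj v (C.F q t) := by
      refine ⟨⟨q, rfl⟩, ⟨p, ?_⟩⟩
      rw [hq, hp, C.fc q p t, C.ff]
    rcases (hw.2.2.2 _).1 h1 with h2 | h2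
    · exact absurd (C.f_inj (h2.trans hp)).symm hpq
    · exact h2
  have hs : (∑ x, if (C.graph.Adj t x ∧ C.graph.Adj v x) then C.χ l x else 0) =
      C.χ l t + C.χ l v := by
    rw [diag_sum_eq hw, hp, ← hr, hq, hp]
    exact C.chi_sum hpq l t
  have e2 : (∑ x, if (C.graph.Adj t x ∧ C.graph.Adj v x) then C.χ l x else 0) - C.χ l v -
      C.χ l t = 0 := by
    rw [hs]; ring
  convert zero_smul ℝ (u (C.F k' a) t * u (C.F k a) v)

/-- the difference of `x_l` along a flip -/
noncomputable def D (u : Ω → Ω → A) (k l : T) (a : Ω) : A :=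
  C.χ k a • (al u (C.χ l) a - al u (C.χ l) (C.F k a))

theorem D_const (h : QIso C.graph C.graph u) (N : Ω → Ω → Prop)
    (hN1 : ∀ a c l, N a c → al u (C.χ l) a = al u (C.χ l) c)
    (hN2 : ∀ a c k, N a c → N (C.F k a) (C.F k c))
    (hN3 : ∀ a c k, N a c → C.χ k a = C.χ k c)
    (hconn : ∀ Q : Ω → Prop, (∀ a k, Q a → Q (C.F k a)) → (∀ a c, N a c → Q a → Q c) →
      ∀ a c, Q a → Q c) (k l : T) (a c : Ω) : C.D u k l c = C.D u k l a := by
  refine hconn (fun c => C.D u k l c = C.D u k l a) ?_ ?_ a c rfl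
  · intro c j hc
    rw [← hc]
    unfold D
    by_cases hjk : j = k
    · subst hjk
      rw [C.c2, C.ff, neg_smul, ← smul_neg, neg_sub]
    · rw [C.c3 j k c (Ne.symm hjk)]
      have h1 := C.second h (Ne.symm hjk) l c
      congr 1
      have h2 : al u (C.χ l) c - al u (C.χ l) (C.F k c) =
          al u (C.χ l) (C.F j c) - al u (C.χ l) (C.F k (C.F j c)) := by
        rw [← sub_eq_zero, ← h1]; abel
      exact h2.symm
  · intro c d hcd hc
    rw [← hc]
    unfold D
    rw [hN3 c d k hcd, hN1 c d l hcd, hN1 _ _ l (hN2 c d k hcd)]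

section rel

variable (h : QIso C.graph C.graph u) (B : T → T → A) (hBd : ∀ k l a, C.D u k l a = B k l)

include h hBd

theorem dx (k l : T) (a : Ω) :
    al u (C.χ l) a - al u (C.χ l) (C.F k a) = C.χ k a • B k l := by
  rw [← hBd k l a]
  unfold D
  rw [smul_smul, C.c1, one_smul]

theorem B_star [Nonempty Ω] (k l : T) : star (B k l) = B k l := by
  obtain ⟨a⟩ := ‹Nonempty Ω›
  rw [← hBd k l a]
  unfold D
  rw [star_smul, star_sub, h.star_al, h.star_al, star_trivial]

theorem B_anti [Nonempty Ω] (k l m : T) (hlm : l ≠ m) : B k l * B k m + B k m * B k l = 0 := by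
  obtain ⟨a⟩ := ‹Nonempty Ω›
  have hFK : ∀ w v, C.graph.Adj w v → C.χ l w = C.χ l v ∨ C.χ m w = C.χ m v := by
    rintro w v ⟨j, rfl⟩
    by_cases hj : l = j
    · right
      exact (C.c3 j m w (fun h => hlm (hj.trans h.symm))).symm
    · left
      exact (C.c3 j l w hj).symm
  have e1 := h.L2 hFK (show C.graph.Adj a (C.F k a) from ⟨k, rfl⟩)
  have e2 := h.L2 hFK (show C.graph.Adj (C.F k a) a from ⟨k, (C.ff k a).symm⟩)
  have e3 : (al u (C.χ l) a - al u (C.χ l) (C.F k a)) * (al u (C.χ m) a - al u (C.χ m) (C.F k a)) +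
      (al u (C.χ m) a - al u (C.χ m) (C.F k a)) *
        (al u (C.χ l) a - al u (C.χ l) (C.F k a)) = 0 := by
    linear_combination (norm := noncomm_ring) e1 + e2
  rw [C.dx h B hBd, C.dx h B hBd, smul_mul_smul_comm, smul_mul_smul_comm, C.c1, one_smul,
    one_smul] at e3
  exact e3

theorem B_sand (k l : T) (a y w : Ω) : u (C.F k a) y * B k l * u a w =
    (C.χ k a * (C.χ l w - C.χ l y)) • (u (C.F k a) y * u a w) := by
  have h1 : B k l = C.χ k a • (al u (C.χ l) a - al u (C.χ l) (C.F k a)) := (hBd k l a).symm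
  rw [h1, mul_smul_comm, smul_mul_assoc, mul_sub, sub_mul, mul_assoc, h.al_mul_u, h.u_mul_al,
    mul_smul_comm, smul_mul_assoc, ← sub_smul, smul_smul]

theorem B_int (k l : T) (a w : Ω) : B k l * u a w = u (C.F k a) (C.F l w) * B k l := by
  have h0 : ∀ y w, y ≠ C.F l w → u (C.F k a) y * B k l * u a w = 0 := by
    intro y w hy
    rw [C.B_sand h B hBd]
    by_cases hadj : C.graph.Adj y w
    · obtain ⟨m, rfl⟩ := hadj
      have hml : l ≠ m := by
        rintro rfl
        exact hy (C.ff l y).symm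
      rw [C.c3 m l y hml, sub_self, mul_zero, zero_smul]
    · have : u (C.F k a) y * u a w = 0 :=
        h.adj _ _ _ _ fun h' => hadj (h'.1 ⟨k, (C.ff k a).symm⟩)
      rw [this, smul_zero]
  have e1 : B k l * u a w = u (C.F k a) (C.F l w) * B k l * u a w := by
    conv_lhs => rw [← one_mul (B k l * u a w), ← h.rowSum (C.F k a), Finset.sum_mul]
    rw [Finset.sum_eq_single (C.F l w)]
    · rw [mul_assoc]
    · intro y _ hy
      rw [← mul_assoc]
      exact h0 y w hy
    · intro hw; exact absurd (Finset.mem_univ _) hw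
  have e2 : u (C.F k a) (C.F l w) * B k l = u (C.F k a) (C.F l w) * B k l * u a w := by
    conv_lhs => rw [← mul_one (u (C.F k a) (C.F l w) * B k l), ← h.rowSum a, Finset.mul_sum]
    rw [Finset.sum_eq_single w]
    · intro w' _ hw'
      apply h0
      intro he
      apply hw'
      rw [← C.ff l w', ← he, C.ff]
    · intro hw; exact absurd (Finset.mem_univ _) hw
  rw [e1, ← e2]

theorem B_edge (k m : T) (a w : Ω) : u a w * B k m =
    (2 * (C.χ k a * C.χ m w)) • (u a w * u (C.F k a) (C.F m w)) := by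
  have e1 : u a w * B k m = u a w * B k m * u (C.F k a) (C.F m w) := by
    have e2 := C.B_int h B hBd k m (C.F k a) (C.F m w)
    rw [C.ff, C.ff] at e2
    rw [mul_assoc, e2, ← mul_assoc, h.idem]
  have e3 := C.B_sand h B hBd k m (C.F k a) w (C.F m w)
  rw [C.ff, C.c2, C.c2] at e3
  rw [e1, e3]
  congr 1
  ring

theorem B_edge' [Nonempty Ω] (k m : T) (a w : Ω) : B k m * u a w =
    (2 * (C.χ k a * C.χ m w)) • (u (C.F k a) (C.F m w) * u a w) := by
  have e0 := C.B_edge h B hBd k m a w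
  obtain ⟨r, hr⟩ : ∃ r : ℝ, r = 2 * (C.χ k a * C.χ m w) := ⟨_, rfl⟩
  rw [← hr] at e0 ⊢
  have e := congrArg star e0
  rwa [star_mul, star_smul, star_mul, h.star_eq, h.star_eq, C.B_star h B hBd, star_trivial] at e

end rel

end Cube

end Pool.Agent.Q20.Qs
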