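import Pool.Agent.Q20.Qs.Cent
import Pool.Agent.H767R3.DS.All3

set_option autoImplicit false
set_option linter.unusedSectionVars false
set_option linter.unusedVariables false

namespace Pool.Agent.Q20.Qs

open Pool.Agent.H741.QS Pool.Agent.H767R3.DS Pool.Agent.H767R3.DS.Waux

/-- the assembly for factors which may be `K_2` -/
theorem t_W' {ι : Type} [Fintype ι] [DecidableEq ι] {P : ι → Type} [∀ i, Fintype (P i)]
    (G : ∀ i, SimpleGraph (P i)) (hG : ∀ i, (G i).Connected) (hP : ∀ i, 2 ≤ Fintype.card (P i))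
    (hprime : ∀ i, PrimeGraph (G i)) (X : SimpleGraph (∀ i, P i)) (hconn : X.Connected)
    (hbip : ¬ X.Colorable 2) (htw : TwinFree X) (hneX : ∃ a b, X.Adj a b)
    (hNQ : NoQuantumSymmetry X) (A : Type) [CStarAlgebra A]
    (u : ((∀ i, P i) × (∀ i, P i)) → ((∀ i, P i) × (∀ i, P i)) → A)
    (h0 : QIso (boxPi G □ boxPi G) (boxPi G □ boxPi G) u) (hdir : QIso (dir X X) (dir X X) u)
    (x0 y0 z0 w0 : (∀ i, P i) × (∀ i, P i)) : u x0 y0 * u z0 w0 = u z0 w0 * u x0 y0 := by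
  classical
  have hF := t_F
  have hU := t_U
  have hZ := t_Z
  have hY := t_Y
  have hV := t_V
  obtain ⟨Ψ0, hΨ0⟩ := exists_iso_split G (fun i => (i, false)) (fun i => (i, true))
    Function.bijective_id Function.bijective_id bij_const
  obtain ⟨u1, hu1⟩ : ∃ u1 : (∀ k : ι × Bool, P k.1) → (∀ k : ι × Bool, P k.1) → A,
      ∀ z w, u1 z w = u (Ψ0 z) (Ψ0 w) := ⟨fun z w => u (Ψ0 z) (Ψ0 w), fun _ _ => rfl⟩
  have hu1e : u1 = fun a w => u (Ψ0 a) (Ψ0 w) := by funext a w; exact hu1 a w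
  have hq1 : QIso (boxPi (fun k : ι × Bool => G k.1)) (boxPi (fun k : ι × Bool => G k.1)) u1 := by
    have h := h0.transport Ψ0 Ψ0
    rw [hu1e]; exact h
  have hΨ01 : ∀ a, (Ψ0 a).1 = fun i => a (i, false) := fun a => funext fun i => (hΨ0 a i).1
  have hΨ02 : ∀ a, (Ψ0 a).2 = fun i => a (i, true) := fun a => funext fun i => (hΨ0 a i).2
  have hR1 : QIso (R2 X) (R2 X) u1 := by
    let φ : R2 X ≃g dir X X := mkIso Ψ0.toEquiv (by
      intro a b
      show (X.Adj (Ψ0 a).1 (Ψ0 b).1 ∧ X.Adj (Ψ0 a).2 (Ψ0 b).2) ↔ _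
      rw [hΨ01, hΨ01, hΨ02, hΨ02]
      exact Iff.rfl)
    have h := hdir.transport φ φ
    rw [hu1e]; exact h
  have hB : ∀ x : A, star x * x = 0 → x = 0 :=
    fun x hx => CStarRing.star_mul_self_eq_zero_iff x |>.1 hx
  obtain ⟨E, e1, e2, e3, e4, e5, e6⟩ := exists_central' (fun k : ι × Bool => G k.1)
    (fun k => hG k.1) (fun k => hP k.1) (fun k => hprime k.1) hB u1 hq1
    (fun l a b hab => all_good' (fun k : ι × Bool => G k.1) (fun k => hG k.1) (fun k => hP k.1)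
      (fun k => hprime k.1) hB u1 hq1 (R2 X) hR1
      (fun l l' hll g1 g2 => rigid X hconn hbip htw hNQ l l' hll g1 g2) l hab)
  by_contra hne
  have hx : u x0 y0 * u z0 w0 - u z0 w0 * u x0 y0 ≠ 0 := sub_ne_zero.2 hne
  obtain ⟨e, σ, he1, he2, he3, he4, he5⟩ := exists_pure E e1 e2 e3 e4
    (Set.range (fun p : (∀ k : ι × Bool, P k.1) × (∀ k : ι × Bool, P k.1) => u1 p.1 p.2))
    (by rintro k l _ ⟨p, rfl⟩; exact e5 k l p.1 p.2) _ hx
  have he3' : ∀ a w, e * u1 a w = u1 a w * e := fun a w => he3 _ ⟨(a, w), rfl⟩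
  have he0 : e ≠ 0 := by
    rintro rfl
    exact he5 (zero_mul _)
  have hEe : ∀ k, E k (σ k) * e = e := by
    intro k
    have h := congrArg star (he4 k)
    rwa [star_mul, he1, e1] at h
  have hσ : ∀ k a b w v, DirAdj (fun k : ι × Bool => G k.1) k a b →
      ¬ DirAdj (fun k : ι × Bool => G k.1) (σ k) w v → u1 a w * u1 b v * e = 0 := by
    intro k a b w v hd hn
    rw [← hEe k, ← mul_assoc, e6 k (σ k) a b w v hd hn, zero_mul]
  have hbij : Function.Bijective σ := sigma_bijective (fun k : ι × Bool => G k.1)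
    (fun k => hG k.1) (fun k => hP k.1) u1 hq1 e he0 he2 he3' σ hσ
  have hU' := hU (ι × Bool) (fun k => P k.1) (fun k => G k.1) (fun k => hG k.1) A u1 (R2 X) hq1 hR1
    e he0 he1 he2 he3' σ hbij hσ
  obtain ⟨Y1, Y2, Y3, Y4⟩ := hY ι P X
  have Y5 := Y4 hneX
  obtain ⟨κ, κ', hκ1, hκ2, hk1, hk2, hB1, hB2⟩ := hZ ι (Equiv.ofBijective σ hbij)
    {C | Spl X.Adj C} Y1 Y2 (fun C hC D hD => Y3 C D hC hD)
    (fun C h1 h2 => (Y5 (σ ⁻¹' C)).1 (hU' C ((Y5 C).2 ⟨h1, h2⟩)))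
  have hκ1' : Function.Bijective (fun i => (σ (i, κ i)).1) := hκ1
  have hκ2' : Function.Bijective (fun i => (σ (i, !κ i)).1) := hκ2
  have hk1' : ∀ i, (σ (i, κ i)).2 = κ' (σ (i, κ i)).1 := hk1
  have hk2' : ∀ i, (σ (i, !κ i)).2 = !κ' (σ (i, !κ i)).1 := hk2
  have hB1' : Spl X.Adj {i | κ i = false} := hB1
  have hB2' : Spl X.Adj {i | κ' i = false} := hB2
  have hs := bij_kappa κ
  have hs' : Function.Bijective (Sum.elim (fun i : ι => σ (i, κ i)) (fun i : ι => σ (i, !κ i))) := by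
    have h : Sum.elim (fun i : ι => σ (i, κ i)) (fun i : ι => σ (i, !κ i)) =
        σ ∘ Sum.elim (fun i : ι => (i, κ i)) (fun i : ι => (i, !κ i)) := by
      funext s; rcases s with s | s <;> rfl
    rw [h]
    exact hbij.comp hs
  obtain ⟨Φ, hΦ⟩ := exists_iso_split G (fun i => (i, κ i)) (fun i => (i, !κ i))
    Function.bijective_id Function.bijective_id hs
  obtain ⟨Ψ, hΨ⟩ := exists_iso_split G (fun i => σ (i, κ i)) (fun i => σ (i, !κ i)) hκ1' hκ2' hs'
  have hΦ1 : ∀ (a : (∀ i, P i) × (∀ i, P i)) i, a.1 i = Φ.symm a (i, κ i) := by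
    intro a i
    have h := (hΦ (Φ.symm a) i).1
    rwa [Φ.apply_symm_apply] at h
  have hΦ2 : ∀ (a : (∀ i, P i) × (∀ i, P i)) i, a.2 i = Φ.symm a (i, !κ i) := by
    intro a i
    have h := (hΦ (Φ.symm a) i).2
    rwa [Φ.apply_symm_apply] at h
  have hΨ1 : ∀ (a : (∀ i, P i) × (∀ i, P i)) i, a.1 (σ (i, κ i)).1 = Ψ.symm a (σ (i, κ i)) := by
    intro a i
    have h := (hΨ (Ψ.symm a) i).1
    rwa [Ψ.apply_symm_apply] at h
  have hΨ2 : ∀ (a : (∀ i, P i) × (∀ i, P i)) i, a.2 (σ (i, !κ i)).1 = Ψ.symm a (σ (i, !κ i)) := by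
    intro a i
    have h := (hΨ (Ψ.symm a) i).2
    rwa [Ψ.apply_symm_apply] at h
  have hΨ1' : ∀ (a : (∀ i, P i) × (∀ i, P i)), a.1 = fun j => Ψ.symm a (j, κ' j) := by
    intro a
    funext j
    obtain ⟨i, hi⟩ := hκ1'.2 j
    simp only at hi
    subst hi
    rw [hΨ1 a i]
    exact snd_eq (P := P) (Ψ.symm a) (σ (i, κ i)) _ (hk1' i)
  have hΨ2' : ∀ (a : (∀ i, P i) × (∀ i, P i)), a.2 = fun j => Ψ.symm a (j, !κ' j) := by
    intro a
    funext j
    obtain ⟨i, hi⟩ := hκ2'.2 j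
    simp only at hi
    subst hi
    rw [hΨ2 a i]
    exact snd_eq (P := P) (Ψ.symm a) (σ (i, !κ i)) _ (hk2' i)
  have hΦ1' : ∀ (a : (∀ i, P i) × (∀ i, P i)), a.1 = fun j => Φ.symm a (j, κ j) :=
    fun a => funext (hΦ1 a)
  have hΦ2' : ∀ (a : (∀ i, P i) × (∀ i, P i)), a.2 = fun j => Φ.symm a (j, !κ j) :=
    fun a => funext (hΦ2 a)
  have hX : (boxPi G).Connected := boxPi_connected G hG
  have : Nonempty (∀ i, P i) := hX.nonempty
  have hut := hq1.transport Φ.symm Ψ.symm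
  have hdt : QIso (dir X X) (dir X X) (fun a w => u1 (Φ.symm a) (Ψ.symm w)) := by
    let φ : dir X X ≃g R2 X := mkIso Φ.symm.toEquiv (by
      intro a b
      show (R2 X).Adj (Φ.symm a) (Φ.symm b) ↔ (X.Adj a.1 b.1 ∧ X.Adj a.2 b.2)
      rw [hV ι P X κ hB1' (Φ.symm a) (Φ.symm b), ← hΦ1' a, ← hΦ1' b, ← hΦ2' a, ← hΦ2' b])
    let ψ : dir X X ≃g R2 X := mkIso Ψ.symm.toEquiv (by
      intro a b
      show (R2 X).Adj (Ψ.symm a) (Ψ.symm b) ↔ (X.Adj a.1 b.1 ∧ X.Adj a.2 b.2)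
      rw [hV ι P X κ' hB2' (Ψ.symm a) (Ψ.symm b), ← hΨ1' a, ← hΨ1' b, ← hΨ2' a, ← hΨ2' b])
    exact hR1.transport φ ψ
  have hend := hF (∀ i, P i) X (boxPi G) hX hneX hNQ A (fun a w => u1 (Φ.symm a) (Ψ.symm w)) hut
    hdt e he1 he2
    (fun a w => he3' _ _) (by
      intro a b w v hab1 hab2 hwv
      obtain ⟨i0, hi0⟩ := hab1
      refine hσ (i0, κ i0) _ _ _ _ ?_ ?_
      · exact (split_core G (fun i => (i, κ i)) (fun i => (i, !κ i)) Function.bijective_id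
          Function.bijective_id hs (Φ.symm a) (Φ.symm b) a.1 b.1 a.2 b.2 (hΦ1 a) (hΦ1 b)
          (hΦ2 a) (hΦ2 b) i0).2 ⟨hi0, hab2⟩
      · intro hd
        obtain ⟨d1, d2⟩ := (split_core G (fun i => σ (i, κ i)) (fun i => σ (i, !κ i)) hκ1' hκ2' hs'
          (Ψ.symm w) (Ψ.symm v) w.1 v.1 w.2 v.2 (hΨ1 w) (hΨ1 v) (hΨ2 w) (hΨ2 v) i0).1 hd
        exact hwv ⟨⟨_, d1⟩, d2⟩) (by
      intro a b w v hab1 hab2 hwv
      obtain ⟨i0, hi0⟩ := hab2
      refine hσ (i0, !κ i0) _ _ _ _ ?_ ?_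
      · exact (split_core G (fun i => (i, !κ i)) (fun i => (i, κ i)) Function.bijective_id
          Function.bijective_id (bij_swap hs) (Φ.symm a) (Φ.symm b) a.2 b.2 a.1 b.1 (hΦ2 a) (hΦ2 b)
          (hΦ1 a) (hΦ1 b) i0).2 ⟨hi0, hab1⟩
      · intro hd
        obtain ⟨d1, d2⟩ := (split_core G (fun i => σ (i, !κ i)) (fun i => σ (i, κ i)) hκ2' hκ1'
          (bij_swap hs')
          (Ψ.symm w) (Ψ.symm v) w.2 v.2 w.1 v.1 (hΨ2 w) (hΨ2 v) (hΨ1 w) (hΨ1 v) i0).1 hd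
        exact hwv ⟨d2, ⟨_, d1⟩⟩)
  have hut' : ∀ a w, u a w = u1 (Φ.symm (Φ (Ψ0.symm a))) (Ψ.symm (Ψ (Ψ0.symm w))) := by
    intro a w
    rw [Φ.symm_apply_apply, Ψ.symm_apply_apply, hu1, Ψ0.apply_symm_apply, Ψ0.apply_symm_apply]
  apply he5
  rw [mul_sub, sub_eq_zero, hut' x0 y0, hut' z0 w0]
  exact hend _ _ _ _

theorem assembly' (V : Type) [Fintype V] [Nonempty V] (X S : SimpleGraph V)
    (hS : S.Connected) (hconn : X.Connected) (hbip : ¬ X.Colorable 2) (htw : TwinFree X)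
    (hadj : ∃ a b, X.Adj a b) (hq : NoQuantumSymmetry X)
    (A : Type) [CStarAlgebra A] (u : (V × V) → (V × V) → A)
    (h1 : QIso (S □ S) (S □ S) u) (h2 : QIso (dir X X) (dir X X) u) :
    ∀ x y z w, u x y * u z w = u z w * u x y := by
  classical
  obtain ⟨ι, i1, i2, P, i3, G, hG, ⟨e⟩⟩ := factor_aux _ S rfl hS
  let X' : SimpleGraph (∀ i, P i) := X.comap e.symm
  let f : X' ≃g X :=
    { toEquiv := e.symm.toEquiv
      map_rel_iff' := by
        intro a b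
        rfl }
  have hX' : NoQuantumSymmetry X' := noqs_of_iso f.symm hq
  have k1 := h1.transport (prodCongr e.symm e.symm) (prodCongr e.symm e.symm)
  have k2 := h2.transport (dirCongr f f) (dirCongr f f)
  have hfe : ∀ a : (∀ i, P i) × (∀ i, P i), dirCongr f f a = prodCongr e.symm e.symm a :=
    fun a => rfl
  have hadj' : ∃ a b, X'.Adj a b := by
    obtain ⟨a, b, hab⟩ := hadj
    refine ⟨e a, e b, ?_⟩
    show X.Adj (e.symm (e a)) (e.symm (e b))
    rw [e.symm_apply_apply, e.symm_apply_apply]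
    exact hab
  have hconn' : X'.Connected := (f.connected_iff).2 hconn
  have hbip' : ¬ X'.Colorable 2 := fun hc => hbip (hc.of_hom f.symm.toHom)
  have htw' : TwinFree X' := by
    intro x y hxy
    apply f.injective
    apply htw
    intro z
    have h3 := hxy (f.symm z)
    rw [← f.map_adj_iff, ← f.map_adj_iff, f.apply_symm_apply] at h3
    exact h3
  have k3 := t_W' G (fun i => (hG i).1) (fun i => (hG i).2.1) (fun i => (hG i).2.2)
    X' hconn' hbip' htw' hadj' hX' A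
    (fun a w => u (prodCongr e.symm e.symm a) (prodCongr e.symm e.symm w)) k1 k2
  intro x y z w
  have k4 := k3 (prodCongr e e x) (prodCongr e e y) (prodCongr e e z) (prodCongr e e w)
  have hinv : ∀ a : V × V, prodCongr e.symm e.symm (prodCongr e e a) = a := by
    rintro ⟨a, b⟩
    show (e.symm (e a), e.symm (e b)) = (a, b)
    rw [e.symm_apply_apply, e.symm_apply_apply]
  simpa only [hinv] using k4

open Classical in
theorem suff (V : Type) [Fintype V] (X : SimpleGraph V)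
    (h3 : Fintype.card V ≠ 1) (h1 : X.Connected) (hbip : ¬ X.Colorable 2) (ht : TwinFree X)
    (hq : NoQuantumSymmetry X) : NoQuantumSymmetry (dir X X) := by
  have hB := t_B
  have hC := t_C
  have hE := t_E
  have hJ := t_J
  have hL := t_L t_D
  obtain ⟨m, hm⟩ := t_A V X h1 hbip
  intro A _ u hu hc x y z w
  have hne : Nonempty V := h1.nonempty
  have h0 := qiso_of_magic (dir X X) u hu (by convert hc)
  have hker := hB V X h1 ht m hm
  obtain ⟨N, hN⟩ : ∃ N : V → V → ℝ, N = (fun a b => (X.adjMatrix ℝ ^ (2 * m)) a b /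
      Real.sqrt ((X.adjMatrix ℝ ^ (2 * m)) a a * (X.adjMatrix ℝ ^ (2 * m)) b b)) := ⟨_, rfl⟩
  rw [← hN] at hker
  have hpos : ∀ a, 0 < (X.adjMatrix ℝ ^ (2 * m)) a a := by
    intro a
    have h := hker.pos a a
    rw [hN] at h
    simp only at h
    by_contra hle
    push Not at hle
    have : (X.adjMatrix ℝ ^ (2 * m)) a a /
        Real.sqrt ((X.adjMatrix ℝ ^ (2 * m)) a a * (X.adjMatrix ℝ ^ (2 * m)) a a) ≤ 0 :=
      div_nonpos_of_nonpos_of_nonneg hle (Real.sqrt_nonneg _)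
    linarith
  have hP := ker_pres X N (fun a b => u a b) h0 (fun a b => (X.adjMatrix ℝ ^ (2 * m)) a b) hpos
    (fun a b => by rw [hN]) (hJ V X A (fun a b => u a b) h0 (2 * m))
  obtain ⟨hk2, hS⟩ := hE V N hker
  have hQ := hL (V × V) (dir X X) (kk N) A (fun a b => u a b) h0 hk2 hP
  rw [hS] at hQ
  have hadj : ∃ a b, X.Adj a b := by
    by_contra hno
    push Not at hno
    obtain ⟨a⟩ := hne
    have hc1 : 1 < Fintype.card V := by
      have : 0 < Fintype.card V := Fintype.card_pos_iff.2 ⟨a⟩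
      omega
    obtain ⟨b, hb⟩ := Fintype.exists_ne_of_one_lt_card hc1 a
    exact hb ((ht a b (fun z => ⟨fun h => absurd h (hno _ _), fun h => absurd h (hno _ _)⟩)).symm)
  exact assembly' V X (SG N) (hC V N hker) h1 hbip ht hadj hq A (fun a b => u a b) hQ h0 x y z w

theorem final (V : Type) [Fintype V] [Nonempty V] (X : SimpleGraph V) :
    NoQuantumSymmetry (dir X X) ↔ (Fintype.card V = 1 ∨
      (X.Connected ∧ ¬ X.Colorable 2 ∧ TwinFree X ∧ NoQuantumSymmetry X)) := by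
  constructor
  · exact necAll V X
  · intro h
    by_cases h1 : Fintype.card V = 1
    · exact one_noqs V X h1
    · rcases h with h | h
      · exact absurd h h1
      · exact suff V X h1 h.1 h.2.1 h.2.2.1 h.2.2.2

end Pool.Agent.Q20.Qs
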