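import Pool.Agent.Q20.Qs.CubeU

set_option autoImplicit false
set_option linter.unusedSectionVars false
set_option linter.unusedVariables false

namespace Pool.Agent.Q20.Qs

open Pool.Agent.H741.QS

namespace Cube

variable {Ω T : Type} [Fintype Ω] [Nonempty Ω] [Fintype T] [DecidableEq T] (C : Cube Ω T)
variable {A : Type} [Ring A] [StarRing A] [Algebra ℝ A] [StarModule ℝ A]
variable {u : Ω → Ω → A}

/-- the flip as a permutation -/
def perm (k : T) : Equiv.Perm Ω := Function.Involutive.toPerm (C.F k) (C.ff k)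

theorem perm_apply (k : T) (a : Ω) : C.perm k a = C.F k a := rfl

/-- the elements `h_k` -/
noncomputable def hk (u : Ω → Ω → A) (k : T) (w z : Ω) : A := ∑ a, u a w * u (C.F k a) z

/-- the elements `Y_k` -/
noncomputable def Y (u : Ω → Ω → A) (k : T) (w : Ω) : A := ∑ a, C.χ k a • u a w

variable (h : QIso C.graph C.graph u) (B : T → T → A) (hBd : ∀ k l a, C.D u k l a = B k l)

include h

theorem hk_zero (k : T) (w z : Ω) (hz : ∀ m, C.F m w ≠ z) : C.hk u k w z = 0 := by
  refine Finset.sum_eq_zero fun a _ => ?_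
  apply h.adj
  intro h'
  obtain ⟨m, hm⟩ := h'.1 ⟨k, rfl⟩
  exact hz m hm.symm

theorem hk_zero' (k : T) (w z : Ω) (hz : ∀ m, C.F m z ≠ w) : C.hk u k w z = 0 := by
  apply C.hk_zero h
  intro m hm
  apply hz m
  rw [← hm, C.ff]

theorem Y_sq (k : T) (w : Ω) : C.Y u k w * C.Y u k w = 1 := by
  classical
  unfold Y
  rw [Finset.sum_mul_sum]
  have e1 : ∀ a, ∑ b, C.χ k a • u a w * C.χ k b • u b w = u a w := by
    intro a
    rw [Finset.sum_eq_single a]
    · rw [smul_mul_smul_comm, C.c1, one_smul, h.idem]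
    · intro b _ hb
      rw [smul_mul_smul_comm, h.colOrth a b w (Ne.symm hb), smul_zero]
    · intro hw; exact absurd (Finset.mem_univ _) hw
  rw [Finset.sum_congr rfl (fun a _ => e1 a)]
  exact h.colSum w

include hBd

theorem edge_half (k m : T) (a w : Ω) : u a w * u (C.F k a) (C.F m w) =
    ((C.χ k a * C.χ m w) / 2) • (u a w * B k m) := by
  rw [C.B_edge h B hBd, smul_smul]
  have e : C.χ k a * C.χ m w / 2 * (2 * (C.χ k a * C.χ m w)) = 1 := by
    have h1 := C.c1 k a
    have h2 := C.c1 m w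
    calc C.χ k a * C.χ m w / 2 * (2 * (C.χ k a * C.χ m w)) =
        (C.χ k a * C.χ k a) * (C.χ m w * C.χ m w) := by ring
      _ = 1 := by rw [h1, h2, one_mul]
  rw [e, one_smul]

theorem edge_half' (k m : T) (a w : Ω) : u (C.F k a) (C.F m w) * u a w =
    ((C.χ k a * C.χ m w) / 2) • (B k m * u a w) := by
  rw [C.B_edge' h B hBd, smul_smul]
  have e : C.χ k a * C.χ m w / 2 * (2 * (C.χ k a * C.χ m w)) = 1 := by
    have h1 := C.c1 k a
    have h2 := C.c1 m w
    calc C.χ k a * C.χ m w / 2 * (2 * (C.χ k a * C.χ m w)) =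
        (C.χ k a * C.χ k a) * (C.χ m w * C.χ m w) := by ring
      _ = 1 := by rw [h1, h2, one_mul]
  rw [e, one_smul]

theorem hk_val (k m : T) (w : Ω) : C.hk u k w (C.F m w) =
    (C.χ m w / 2) • (C.Y u k w * B k m) := by
  unfold hk Y
  rw [Finset.sum_mul, Finset.smul_sum]
  refine Finset.sum_congr rfl fun a _ => ?_
  rw [C.edge_half h B hBd, smul_mul_assoc, smul_smul]
  congr 1
  ring

theorem hk_val' (k m : T) (y : Ω) : C.hk u k (C.F m y) y =
    (C.χ m y / 2) • (B k m * C.Y u k y) := by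
  unfold hk Y
  rw [← Equiv.sum_comp (C.perm k) (fun a => u a (C.F m y) * u (C.F k a) y), Finset.mul_sum,
    Finset.smul_sum]
  refine Finset.sum_congr rfl fun a _ => ?_
  rw [C.perm_apply, C.ff, C.edge_half' h B hBd, mul_smul_comm, smul_smul]
  congr 1
  ring

theorem Y_val (k : T) (w : Ω) : C.Y u k w = ∑ m, (C.χ m w / 2) • B k m := by
  have e1 : ∑ z, C.hk u k w z = 1 := by
    unfold hk
    rw [Finset.sum_comm]
    simp only [← Finset.mul_sum, h.rowSum, mul_one]
    exact h.colSum w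
  have e2 : ∑ m, C.hk u k w (C.F m w) = ∑ z, C.hk u k w z := by
    refine Fintype.sum_of_injective (fun m => C.F m w) (fun m q hmq => C.f_inj hmq) _ _ ?_
      (fun _ => rfl)
    intro z hz
    apply C.hk_zero h
    intro m hm
    exact hz ⟨m, hm⟩
  have e3 : ∑ m, C.hk u k w (C.F m w) = C.Y u k w * ∑ m, (C.χ m w / 2) • B k m := by
    rw [Finset.mul_sum]
    refine Finset.sum_congr rfl fun m _ => ?_
    rw [C.hk_val h B hBd, mul_smul_comm]
  rw [e1] at e2
  rw [e3] at e2
  have e4 := congrArg (fun z => C.Y u k w * z) e2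
  simp only [← mul_assoc, C.Y_sq h, one_mul, mul_one] at e4
  exact e4.symm

variable {Hg : SimpleGraph Ω} (hH : QIso Hg Hg u)

include hH

theorem rel1 (k l : T) (a b w y : Ω) (hne : u a w * (u b y * B k l) ≠ 0) :
    Hg.Adj (C.F k a) (C.F k b) ↔ Hg.Adj (C.F l w) (C.F l y) := by
  by_contra hn
  apply hne
  have e1 := C.B_int h B hBd k l (C.F k b) (C.F l y)
  rw [C.ff, C.ff] at e1
  have e2 := C.B_int h B hBd k l (C.F k a) (C.F l w)
  rw [C.ff, C.ff] at e2
  rw [← e1, ← mul_assoc, ← e2, mul_assoc, hH.adj _ _ _ _ hn, mul_zero]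

theorem inv1 (k l l' : T) (hne : l ≠ l') (hll : B k l * B k l' ≠ 0) (w y : Ω) :
    Hg.Adj (C.F l w) (C.F l y) ↔ Hg.Adj (C.F l' w) (C.F l' y) := by
  obtain ⟨a, b, hab⟩ : ∃ a b, u a w * (u b y * (B k l * B k l')) ≠ 0 := by
    by_contra hno
    push Not at hno
    apply hll
    have e1 : ∑ a, ∑ b, u a w * (u b y * (B k l * B k l')) = B k l * B k l' := by
      have e2 : ∀ a, ∑ b, u a w * (u b y * (B k l * B k l')) = u a w * (B k l * B k l') := by
        intro a
        rw [← Finset.mul_sum, ← Finset.sum_mul, h.colSum, one_mul]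
      rw [Finset.sum_congr rfl (fun a _ => e2 a), ← Finset.sum_mul, h.colSum, one_mul]
    rw [← e1]
    exact Finset.sum_eq_zero fun a _ => Finset.sum_eq_zero fun b _ => hno a b
  have h1 : u a w * (u b y * B k l) ≠ 0 := by
    intro h0
    apply hab
    rw [← mul_assoc (u b y), ← mul_assoc, h0, zero_mul]
  have h2 : u a w * (u b y * B k l') ≠ 0 := by
    intro h0
    apply hab
    have e := eq_neg_of_add_eq_zero_left (C.B_anti h B hBd k l l' hne)
    rw [e, mul_neg, mul_neg, ← mul_assoc (u b y), ← mul_assoc, h0, zero_mul, neg_zero]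
  rw [← C.rel1 h B hBd hH k l a b w y h1, ← C.rel1 h B hBd hH k l' a b w y h2]

open Classical in
theorem two_sides (k l : T) (w y : Ω) :
    (∑ m, (if Hg.Adj w (C.F m y) then (1 : ℝ) else 0) • C.hk u k (C.F m y) y) * B k l =
      ∑ m, (if Hg.Adj (C.F l y) (C.F l (C.F m w)) then (1 : ℝ) else 0) •
        (C.hk u k w (C.F m w) * B k l) := by
  have hp : ∀ a w, ∑ z, (if Hg.Adj w z then (1 : ℝ) else 0) • u a z =
      ∑ c, (if Hg.Adj a c then (1 : ℝ) else 0) • u c w := by
    intro a w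
    rw [(hH.pres_iff _ _).1 hH.pres_adj a w]
    refine Finset.sum_congr rfl fun z _ => ?_
    simp only [Hg.adj_comm w z]
  have e1 : ∑ m, (if Hg.Adj w (C.F m y) then (1 : ℝ) else 0) • C.hk u k (C.F m y) y =
      ∑ z, (if Hg.Adj w z then (1 : ℝ) else 0) • C.hk u k z y := by
    refine Fintype.sum_of_injective (fun m => C.F m y) (fun m q hmq => C.f_inj hmq) _ _ ?_
      (fun _ => rfl)
    intro z hz
    rw [C.hk_zero' h k z y (fun m hm => hz ⟨m, hm⟩), smul_zero]
  have e2 : ∑ z, (if Hg.Adj w z then (1 : ℝ) else 0) • C.hk u k z y =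
      ∑ c, u c w * ∑ a, (if Hg.Adj a c then (1 : ℝ) else 0) • u (C.F k a) y := by
    unfold hk
    simp only [Finset.smul_sum, Finset.mul_sum]
    rw [Finset.sum_comm]
    have e3 : ∀ a, ∑ z, (if Hg.Adj w z then (1 : ℝ) else 0) • (u a z * u (C.F k a) y) =
        ∑ c, u c w * (if Hg.Adj a c then (1 : ℝ) else 0) • u (C.F k a) y := by
      intro a
      have e4 : ∑ z, (if Hg.Adj w z then (1 : ℝ) else 0) • (u a z * u (C.F k a) y) =
          (∑ z, (if Hg.Adj w z then (1 : ℝ) else 0) • u a z) * u (C.F k a) y := by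
        rw [Finset.sum_mul]
        exact Finset.sum_congr rfl fun z _ => (smul_mul_assoc _ _ _).symm
      rw [e4, hp a w, Finset.sum_mul]
      refine Finset.sum_congr rfl fun c _ => ?_
      rw [smul_mul_assoc, mul_smul_comm]
    rw [Finset.sum_congr rfl (fun a _ => e3 a), Finset.sum_comm]
  have e5 : ∀ c, (∑ a, (if Hg.Adj a c then (1 : ℝ) else 0) • u (C.F k a) y) * B k l =
      ∑ v, (if Hg.Adj (C.F l y) (C.F l v) then (1 : ℝ) else 0) • (u (C.F k c) v * B k l) := by
    intro c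
    rw [Finset.sum_mul]
    have e6 : ∀ a, (if Hg.Adj a c then (1 : ℝ) else 0) • u (C.F k a) y * B k l =
        B k l * (if Hg.Adj c a then (1 : ℝ) else 0) • u a (C.F l y) := by
      intro a
      rw [smul_mul_assoc, mul_smul_comm, C.B_int h B hBd, C.ff]
      simp only [Hg.adj_comm a c]
    rw [Finset.sum_congr rfl (fun a _ => e6 a), ← Finset.mul_sum, ← hp c (C.F l y), Finset.mul_sum,
      ← Equiv.sum_comp (C.perm l) (fun z => B k l * (if Hg.Adj (C.F l y) z then (1 : ℝ) else 0) •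
        u c z)]
    refine Finset.sum_congr rfl fun v _ => ?_
    rw [C.perm_apply, mul_smul_comm, C.B_int h B hBd, C.ff]
  rw [e1, e2, Finset.sum_mul]
  have e7 : ∀ c, u c w * (∑ a, (if Hg.Adj a c then (1 : ℝ) else 0) • u (C.F k a) y) * B k l =
      ∑ v, (if Hg.Adj (C.F l y) (C.F l v) then (1 : ℝ) else 0) •
        (u c w * u (C.F k c) v * B k l) := by
    intro c
    rw [mul_assoc, e5, Finset.mul_sum]
    refine Finset.sum_congr rfl fun v _ => ?_
    rw [mul_smul_comm, mul_assoc]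
  rw [Finset.sum_congr rfl (fun c _ => e7 c), Finset.sum_comm]
  have e8 : ∀ v, ∑ c, (if Hg.Adj (C.F l y) (C.F l v) then (1 : ℝ) else 0) •
        (u c w * u (C.F k c) v * B k l) =
      (if Hg.Adj (C.F l y) (C.F l v) then (1 : ℝ) else 0) • (C.hk u k w v * B k l) := by
    intro v
    unfold hk
    rw [Finset.sum_mul, Finset.smul_sum]
  rw [Finset.sum_congr rfl (fun v _ => e8 v)]
  symm
  refine Fintype.sum_of_injective (fun m => C.F m w) (fun m q hmq => C.f_inj hmq) _ _ ?_
    (fun _ => rfl)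
  intro z hz
  rw [C.hk_zero h k w z (fun m hm => hz ⟨m, hm⟩), zero_mul, smul_zero]

theorem inv2 (hB : ∀ x : A, star x * x = 0 → x = 0) (k l l' : T) (hne : l ≠ l')
    (hll : B k l * B k l' ≠ 0) (w y : Ω)
    (hpar : C.χ l w * C.χ l' w = C.χ l y * C.χ l' y) :
    Hg.Adj w (C.F l y) ↔ Hg.Adj w (C.F l' y) := by
  classical
  obtain ⟨η, hη⟩ : ∃ η : Ω → Ω → ℝ, η = fun a b => if Hg.Adj a b then (1 : ℝ) else 0 := ⟨_, rfl⟩
  have hηs : ∀ a b, η a b = η b a := by
    intro a b; rw [hη]; simp only [Hg.adj_comm a b]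
  have hts : (∑ m, η w (C.F m y) • C.hk u k (C.F m y) y) * B k l =
      ∑ m, η (C.F l y) (C.F l (C.F m w)) • (C.hk u k w (C.F m w) * B k l) := by
    have := C.two_sides h B hBd hH k l w y
    rw [hη]
    convert this
  obtain ⟨ζ, hζ⟩ : ∃ ζ : T → T → ℝ, ζ = fun m q => η w (C.F m y) * (C.χ m y / 2) * (C.χ q y / 2) -
    η (C.F l y) (C.F l (C.F q w)) * (C.χ q w / 2) * (C.χ m w / 2) := ⟨_, rfl⟩
  have hZ : (∑ m, ∑ q, ζ m q • (B k m * B k q)) * B k l = 0 := by
    have e1 : ∑ m, η w (C.F m y) • C.hk u k (C.F m y) y =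
        ∑ m, ∑ q, (η w (C.F m y) * (C.χ m y / 2) * (C.χ q y / 2)) • (B k m * B k q) := by
      refine Finset.sum_congr rfl fun m _ => ?_
      rw [C.hk_val' h B hBd, C.Y_val h B hBd, Finset.mul_sum, smul_smul, Finset.smul_sum]
      refine Finset.sum_congr rfl fun q _ => ?_
      rw [mul_smul_comm, smul_smul]
    have e2 : ∑ m, η (C.F l y) (C.F l (C.F m w)) • (C.hk u k w (C.F m w) * B k l) =
        (∑ m, ∑ q, (η (C.F l y) (C.F l (C.F q w)) * (C.χ q w / 2) * (C.χ m w / 2)) •
          (B k m * B k q)) * B k l := by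
      rw [Finset.sum_comm, Finset.sum_mul]
      refine Finset.sum_congr rfl fun m _ => ?_
      rw [C.hk_val h B hBd, C.Y_val h B hBd, ← smul_mul_assoc, smul_smul]
      congr 1
      rw [Finset.sum_mul, Finset.smul_sum]
      refine Finset.sum_congr rfl fun q _ => ?_
      rw [smul_mul_assoc, smul_smul]
    rw [e1, e2, ← sub_eq_zero, ← sub_mul] at hts
    rw [← hts]
    congr 1
    rw [← Finset.sum_sub_distrib]
    refine Finset.sum_congr rfl fun m _ => ?_
    rw [← Finset.sum_sub_distrib]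
    refine Finset.sum_congr rfl fun q _ => ?_
    rw [← sub_smul, hζ]
  have hfin := extract hB (fun m => B k m) (fun m => C.B_star h B hBd k m)
    (fun m q hmq => C.B_anti h B hBd k m q hmq) ζ l l' hne hll hZ
  rw [hζ] at hfin
  simp only at hfin
  rw [C.ff] at hfin
  have i1 : η (C.F l y) (C.F l (C.F l' w)) = η w (C.F l' y) := by
    rw [hηs w (C.F l' y)]
    have := C.inv1 h B hBd hH k l l' hne hll y (C.F l' w)
    rw [C.ff] at this
    rw [hη]
    simp only [this]
  rw [i1, hηs (C.F l y) w] at hfin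
  have c1 := C.c1 l y
  have c2 := C.c1 l' y
  have hfin2 : (C.χ l y * C.χ l' y) * (η w (C.F l y) - η w (C.F l' y)) = 0 := by
    have e3 : C.χ l y * C.χ l' y * (η w (C.F l y) - η w (C.F l' y)) +
        C.χ l w * C.χ l' w * (η w (C.F l y) - η w (C.F l' y)) = 0 := by
      linear_combination 4 * hfin
    rw [hpar] at e3
    linarith
  have hnz : C.χ l y * C.χ l' y ≠ 0 := by
    intro h0
    have : (C.χ l y * C.χ l' y) * (C.χ l y * C.χ l' y) = 1 := by
      calc (C.χ l y * C.χ l' y) * (C.χ l y * C.χ l' y) =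
          (C.χ l y * C.χ l y) * (C.χ l' y * C.χ l' y) := by ring
        _ = 1 := by rw [c1, c2, one_mul]
    rw [h0] at this
    norm_num at this
  have hfin3 : η w (C.F l y) = η w (C.F l' y) := by
    have := (mul_eq_zero.1 hfin2).resolve_left hnz
    linarith
  rw [hη] at hfin3
  simp only at hfin3
  by_cases g1 : Hg.Adj w (C.F l y) <;> by_cases g2 : Hg.Adj w (C.F l' y) <;>
    simp [g1, g2] at hfin3 ⊢

end Cube

end Pool.Agent.Q20.Qs
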