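import Pool.Agent.Q20.Qs.Conc
import Pool.Agent.H767R3.DS.W

set_option autoImplicit false
set_option linter.unusedSectionVars false
set_option linter.unusedVariables false

namespace Pool.Agent.Q20.Qs

open Pool.Agent.H741.QS Pool.Agent.H767R3.DS

theorem opp {a b : ℝ} (ha : a = 1 ∨ a = -1) (hb : b = 1 ∨ b = -1) (h : a ≠ b) : a = -b := by
  rcases ha with h3 | h3 <;> rcases hb with h4 | h4
  · exact absurd (h3.trans h4.symm) h
  · rw [h3, h4]; norm_num
  · rw [h3, h4]
  · exact absurd (h3.trans h4.symm) h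

section single

variable {V : Type} (X : SimpleGraph V) (f f' : V → V) (χ χ' : V → ℝ)
  (ff : ∀ x, f (f x) = x) (ff' : ∀ x, f' (f' x) = x) (c1 : ∀ x, χ x = 1 ∨ χ x = -1)
  (c1' : ∀ x, χ' x = 1 ∨ χ' x = -1) (c2 : ∀ x, χ (f x) = - χ x) (c2' : ∀ x, χ' (f' x) = - χ' x)

include ff c1 c1' c2 in
/-- the two flips in different copies cannot be exchanged -/
theorem mixed_absurd (hconn : X.Connected) (hbip : ¬ X.Colorable 2) (htw : TwinFree X)
    (h2 : ∀ x z y t, χ x * χ' y = χ z * χ' t →
      ((X.Adj x (f z) ∧ X.Adj y t) ↔ (X.Adj x z ∧ X.Adj y (f' t)))) : False := by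
  classical
  obtain ⟨x0⟩ := hconn.nonempty
  have hfne : ∀ x, f x ≠ x := by
    intro x h
    have h3 := c2 x
    rw [h] at h3
    rcases c1 x with h4 | h4 <;> rw [h4] at h3 <;> norm_num at h3
  obtain ⟨y, t, hyt, hχ⟩ : ∃ y t, X.Adj y t ∧ χ' y = χ' t := by
    by_contra hno
    push Not at hno
    apply hbip
    have hcol : X.Coloring Bool := SimpleGraph.Coloring.mk (fun x => decide (χ' x = 1)) (by
      intro v w hvw heq
      apply hno v w hvw
      rw [decide_eq_decide] at heq
      rcases c1' v with h3 | h3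
      · rw [h3, heq.1 h3]
      · rcases c1' w with h4 | h4
        · rw [heq.2 h4, h4]
        · rw [h3, h4])
    have := hcol.colorable
    rwa [Fintype.card_bool] at this
  have key : ∀ x z, χ x = χ z → (X.Adj x (f z) ↔ (X.Adj x z ∧ X.Adj y (f' t))) := by
    intro x z hxz
    have h3 := h2 x z y t (by rw [hxz, hχ])
    constructor
    · intro h4
      exact h3.1 ⟨h4, hyt⟩
    · intro h4
      exact (h3.2 h4).1
  by_cases hs : X.Adj y (f' t)
  · have hall : ∀ x z, X.Adj x (f z) ↔ X.Adj x z := by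
      intro x z
      by_cases hxz : χ x = χ z
      · rw [key x z hxz]
        exact ⟨fun h => h.1, fun h => ⟨h, hs⟩⟩
      · have hxz' : χ x = χ (f z) := by
          rw [c2]
          exact opp (c1 x) (c1 z) hxz
        have h3 := key x (f z) hxz'
        rw [ff] at h3
        rw [h3]
        exact ⟨fun h => ⟨h, hs⟩, fun h => h.1⟩
    exact hfne x0 (htw _ _ (fun z => by rw [X.adj_comm (f x0) z, X.adj_comm x0 z]; exact hall z x0))
  · have hconst : ∀ x z, X.Adj x z → χ x = χ z := by
      intro x z hadj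
      by_contra hxz
      have hxz' : χ x = χ (f z) := by
        rw [c2]
        exact opp (c1 x) (c1 z) hxz
      have h3 := key x (f z) hxz'
      rw [ff] at h3
      exact hs (h3.1 hadj).2
    have hall : ∀ x z, χ x = χ z := by
      intro x z
      obtain ⟨p⟩ := hconn.preconnected x z
      induction p with
      | nil => rfl
      | cons hadj _ ih => exact (hconst _ _ hadj).trans ih
    have h3 := hall x0 (f x0)
    rw [c2] at h3
    rcases c1 x0 with h4 | h4 <;> rw [h4] at h3 <;> norm_num at h3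

include ff ff' c1 c1' c2 c2' in
/-- the two flips of the same copy cannot be exchanged -/
theorem same_absurd [Fintype V] [Nonempty V] (fc : ∀ x, f (f' x) = f' (f x))
    (c3 : ∀ x, χ (f' x) = χ x) (c3' : ∀ x, χ' (f x) = χ' x) (hNQ : NoQuantumSymmetry X)
    (h1 : ∀ x z, X.Adj (f x) (f z) ↔ X.Adj (f' x) (f' z))
    (h2 : ∀ x z, χ x * χ' x = χ z * χ' z → (X.Adj x (f z) ↔ X.Adj x (f' z))) : False := by
  classical
  have htt : ∀ x, f (f' (f (f' x))) = x := by
    intro x
    rw [← fc (f' x), ff', ff]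
  have hpar : ∀ x, χ (f (f' x)) * χ' (f (f' x)) = χ x * χ' x := by
    intro x
    rw [c2, c3, c3', c2']
    ring
  have hparf : ∀ x, χ (f x) * χ' (f x) = - (χ x * χ' x) := by
    intro x
    rw [c2, c3']
    ring
  have hp1 : ∀ x, χ x * χ' x = 1 ∨ χ x * χ' x = -1 := by
    intro x
    rcases c1 x with h3 | h3 <;> rcases c1' x with h4 | h4 <;> rw [h3, h4] <;> norm_num
  have hboth : ∀ x z, X.Adj x z → X.Adj (f (f' x)) (f (f' z)) := by
    intro x z hxz
    rw [h1, ff', ff']
    exact hxz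
  have hone : ∀ x z, χ x * χ' x ≠ χ z * χ' z → X.Adj x z → X.Adj (f (f' x)) z := by
    intro x z hne hxz
    have h3 : χ x * χ' x = χ (f z) * χ' (f z) := by
      rw [hparf]
      exact opp (hp1 x) (hp1 z) hne
    have h4 := h2 x (f z) h3
    rw [ff] at h4
    have h5 := hboth _ _ (h4.1 hxz)
    rwa [ff', ff] at h5
  have hg : ∀ s : ℝ, (∀ x, (fun x => if χ x * χ' x = s then f (f' x) else x)
      ((fun x => if χ x * χ' x = s then f (f' x) else x) x) = x) ∧
      (∀ x z, X.Adj x z → X.Adj ((fun x => if χ x * χ' x = s then f (f' x) else x) x)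
        ((fun x => if χ x * χ' x = s then f (f' x) else x) z)) := by
    intro s
    constructor
    · intro x
      by_cases hx : χ x * χ' x = s
      · simp only [hx, if_true, hpar]
        exact htt x
      · simp only [hx, if_false]
    · intro x z hxz
      by_cases hx : χ x * χ' x = s
      · by_cases hz : χ z * χ' z = s
        · simp only [hx, hz, if_true]
          exact hboth x z hxz
        · simp only [hx, hz, if_true, if_false]
          exact hone x z (fun h => hz (h.symm.trans hx)) hxz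
      · by_cases hz : χ z * χ' z = s
        · simp only [hx, hz, if_true, if_false]
          exact (hone z x (fun h => hx (h.symm.trans hz)) hxz.symm).symm
        · simp only [hx, hz, if_false]
          exact hxz
  have htne : ∀ x, f (f' x) ≠ x := by
    intro x h
    have h3 := congrArg χ h
    rw [c2, c3] at h3
    rcases c1 x with h4 | h4 <;> rw [h4] at h3 <;> norm_num at h3
  have hexa : ∃ a, χ a * χ' a = 1 := by
    obtain ⟨x⟩ := ‹Nonempty V›
    rcases hp1 x with h3 | h3
    · exact ⟨x, h3⟩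
    · exact ⟨f x, by rw [hparf, h3]; norm_num⟩
  obtain ⟨a, ha⟩ := hexa
  have hb : χ (f a) * χ' (f a) = -1 := by rw [hparf, ha]
  refine qsn_key X (fun x => if χ x * χ' x = 1 then f (f' x) else x)
    (fun x => if χ x * χ' x = -1 then f (f' x) else x) (hg 1).1 (hg (-1)).1 (hg 1).2 (hg (-1)).2
    ?_ a (f a) ?_ ?_ hNQ
  · intro x
    rcases hp1 x with h3 | h3
    · right
      have : ¬ ((1 : ℝ) = -1) := by norm_num
      simp only [h3, this, if_false]
    · left
      have : ¬ ((-1 : ℝ) = 1) := by norm_num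
      simp only [h3, this, if_false]
  · simp only [ha, if_true]
    exact htne a
  · simp only [hb, if_true]
    exact htne (f a)

end single

section conc

variable {ι : Type} [Fintype ι] [DecidableEq ι] {P : ι → Type} [∀ i, Fintype (P i)]

/-- a copy of the point -/
def sl (c : Bool) (a : ∀ k : ι × Bool, P k.1) : ∀ i, P i := fun i => a (i, c)

/-- the point with given copies -/
def pt (c : Bool) (x y : ∀ i, P i) : ∀ k : ι × Bool, P k.1 := fun k => if k.2 = c then x k.1 else y k.1

theorem sl_pt (c : Bool) (x y : ∀ i, P i) : sl c (pt c x y) = x := by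
  funext i
  simp [sl, pt]

theorem sl_pt' (c : Bool) (x y : ∀ i, P i) : sl (!c) (pt c x y) = y := by
  funext i
  simp [sl, pt]

theorem R2_adj (X : SimpleGraph (∀ i, P i)) (c : Bool) (a b : ∀ k : ι × Bool, P k.1) :
    (R2 X).Adj a b ↔ (X.Adj (sl c a) (sl c b) ∧ X.Adj (sl (!c) a) (sl (!c) b)) := by
  cases c
  · exact Iff.rfl
  · exact and_comm

theorem sl_F (i : ι) (c : Bool) (hi : Fintype.card (P i) = 2) (a : ∀ k : ι × Bool, P k.1) :
    sl c ((cube (fun k : ι × Bool => P k.1)).F ⟨(i, c), hi⟩ a) = (cube P).F ⟨i, hi⟩ (sl c a) := by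
  funext j
  by_cases hj : j = i
  · subst hj
    have e1 := cube_F_self (P := fun k : ι × Bool => P k.1) ⟨(j, c), hi⟩ a
    have e2 := cube_F_self (P := P) ⟨j, hi⟩ (sl c a)
    exact e1.trans e2.symm
  · have e1 := cube_F_ne (P := fun k : ι × Bool => P k.1) ⟨(i, c), hi⟩ a (j, c)
      (fun h => hj (congrArg Prod.fst h))
    have e2 := cube_F_ne (P := P) ⟨i, hi⟩ (sl c a) j hj
    exact e1.trans e2.symm

theorem sl_F' (i : ι) (c c' : Bool) (hc : c' ≠ c) (hi : Fintype.card (P i) = 2)
    (a : ∀ k : ι × Bool, P k.1) :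
    sl c' ((cube (fun k : ι × Bool => P k.1)).F ⟨(i, c), hi⟩ a) = sl c' a := by
  funext j
  exact cube_F_ne (P := fun k : ι × Bool => P k.1) ⟨(i, c), hi⟩ a (j, c')
      (fun h => hc (congrArg Prod.snd h))

theorem chi_sl (i : ι) (c : Bool) (hi : Fintype.card (P i) = 2) (a : ∀ k : ι × Bool, P k.1) :
    (cube (fun k : ι × Bool => P k.1)).χ ⟨(i, c), hi⟩ a = (cube P).χ ⟨i, hi⟩ (sl c a) := rfl

theorem chi_pm (k : T2 P) (a : ∀ i, P i) : (cube P).χ k a = 1 ∨ (cube P).χ k a = -1 := by
  show (if e2 k (a k.1) then (1 : ℝ) else -1) = 1 ∨ (if e2 k (a k.1) then (1 : ℝ) else -1) = -1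
  split_ifs
  · exact Or.inl rfl
  · exact Or.inr rfl

theorem rigid (X : SimpleGraph (∀ i, P i)) (hconn : X.Connected) (hbip : ¬ X.Colorable 2)
    (htw : TwinFree X) (hNQ : NoQuantumSymmetry X)
    (l l' : T2 (fun k : ι × Bool => P k.1)) (hne : l ≠ l')
    (h1 : ∀ w y, ((R2 X).Adj ((cube _).F l w) ((cube _).F l y) ↔
        (R2 X).Adj ((cube _).F l' w) ((cube _).F l' y)))
    (h2 : ∀ w y, (cube _).χ l w * (cube _).χ l' w = (cube _).χ l y * (cube _).χ l' y →
        ((R2 X).Adj w ((cube _).F l y) ↔ (R2 X).Adj w ((cube _).F l' y))) : False := by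
  obtain ⟨⟨i, c⟩, hi⟩ := l
  obtain ⟨⟨i', c'⟩, hi'⟩ := l'
  have hne0 : Nonempty (∀ i, P i) := hconn.nonempty
  by_cases hc : c' = c
  · subst hc
    have hii : i ≠ i' := by
      rintro rfl
      exact hne rfl
    obtain ⟨p, q, hpq⟩ : ∃ p q, X.Adj p q := by
      by_contra hno
      push Not at hno
      apply hbip
      have hcol : X.Coloring Bool := SimpleGraph.Coloring.mk (fun x => true) (by
        intro v w hvw
        exact absurd hvw (hno v w))
      have := hcol.colorable
      rwa [Fintype.card_bool] at this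
    have hcc : (!c') ≠ c' := by cases c' <;> simp
    have hT : (⟨i, hi⟩ : T2 P) ≠ ⟨i', hi'⟩ := fun h => hii (congrArg Subtype.val h)
    refine same_absurd X ((cube P).F ⟨i, hi⟩) ((cube P).F ⟨i', hi'⟩) ((cube P).χ ⟨i, hi⟩)
      ((cube P).χ ⟨i', hi'⟩) ((cube P).ff _) ((cube P).ff _) (chi_pm _) (chi_pm _) ((cube P).c2 _)
      ((cube P).c2 _) (fun x => (cube P).fc _ _ x) (fun x => (cube P).c3 _ _ x hT)
      (fun x => (cube P).c3 _ _ x (Ne.symm hT)) hNQ ?_ ?_
    · intro x z
      have h3 := h1 (pt c' x p) (pt c' z q)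
      rw [R2_adj X c', R2_adj X c', sl_F, sl_F, sl_F, sl_F, sl_F' i c' (!c') hcc,
        sl_F' i c' (!c') hcc, sl_F' i' c' (!c') hcc, sl_F' i' c' (!c') hcc, sl_pt, sl_pt, sl_pt',
        sl_pt'] at h3
      constructor
      · intro h4; exact (h3.1 ⟨h4, hpq⟩).1
      · intro h4; exact (h3.2 ⟨h4, hpq⟩).1
    · intro x z hxz
      have h3 := h2 (pt c' x p) (pt c' z q) (by
        rw [chi_sl, chi_sl, chi_sl, chi_sl, sl_pt, sl_pt]; exact hxz)
      rw [R2_adj X c', R2_adj X c', sl_F, sl_F, sl_F' i c' (!c') hcc,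
        sl_F' i' c' (!c') hcc, sl_pt, sl_pt, sl_pt', sl_pt'] at h3
      constructor
      · intro h4; exact (h3.1 ⟨h4, hpq⟩).1
      · intro h4; exact (h3.2 ⟨h4, hpq⟩).1
  · have hc' : c' = !c := by cases c <;> cases c' <;> simp_all
    subst hc'
    refine mixed_absurd X ((cube P).F ⟨i, hi⟩) ((cube P).F ⟨i', hi'⟩) ((cube P).χ ⟨i, hi⟩)
      ((cube P).χ ⟨i', hi'⟩) ((cube P).ff _) (chi_pm _) (chi_pm _) ((cube P).c2 _) hconn hbip htw ?_
    intro x z y t hxz
    have h3 := h2 (pt c x y) (pt c z t) (by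
      rw [chi_sl, chi_sl, chi_sl, chi_sl, sl_pt, sl_pt, sl_pt', sl_pt']; exact hxz)
    rw [R2_adj X c, R2_adj X c, sl_F, sl_F, sl_F' i c (!c) hc,
      sl_F' i' (!c) c (Ne.symm hc), sl_pt, sl_pt, sl_pt', sl_pt'] at h3
    exact h3

end conc

end Pool.Agent.Q20.Qs
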